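import Pool.Agent.T6.H89.Vis.Test
import Pool.Agent.H247R2.Warren

/-!
# The visibility graph is determined by the signs of polynomials
-/

set_option autoImplicit false

open Set Topology Filter

namespace Pool.Agent.T6.H89.Vis

section

variable {ι : Type*}

/-- Polynomial functions of degree at most `d`. -/
def IsPoly (d : ℕ) (f : (ι → ℝ) → ℝ) : Prop :=
  ∃ p : MvPolynomial ι ℝ, p.totalDegree ≤ d ∧ ∀ x, MvPolynomial.eval x p = f x

theorem IsPoly.coord (i : ι) : IsPoly 1 fun x : ι → ℝ => x i :=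
  ⟨MvPolynomial.X i, (MvPolynomial.totalDegree_X i).le, fun x => by simp⟩

theorem IsPoly.const (c : ℝ) : IsPoly 0 fun _ : ι → ℝ => c :=
  ⟨MvPolynomial.C c, (MvPolynomial.totalDegree_C c).le, fun x => by simp⟩

theorem IsPoly.mono {d d' : ℕ} {f : (ι → ℝ) → ℝ} (h : IsPoly d f) (hd : d ≤ d') : IsPoly d' f := by
  obtain ⟨p, h1, h2⟩ := h
  exact ⟨p, h1.trans hd, h2⟩

theorem IsPoly.add {d : ℕ} {f g : (ι → ℝ) → ℝ} (hf : IsPoly d f) (hg : IsPoly d g) :
    IsPoly d fun x => f x + g x := by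
  obtain ⟨p, h1, h2⟩ := hf
  obtain ⟨q, h3, h4⟩ := hg
  refine ⟨p + q, (MvPolynomial.totalDegree_add p q).trans (max_le h1 h3), fun x => ?_⟩
  rw [map_add, h2, h4]

theorem IsPoly.sub {d : ℕ} {f g : (ι → ℝ) → ℝ} (hf : IsPoly d f) (hg : IsPoly d g) :
    IsPoly d fun x => f x - g x := by
  obtain ⟨p, h1, h2⟩ := hf
  obtain ⟨q, h3, h4⟩ := hg
  refine ⟨p - q, (MvPolynomial.totalDegree_sub p q).trans (max_le h1 h3), fun x => ?_⟩
  rw [map_sub, h2, h4]

theorem IsPoly.mul {d e : ℕ} {f g : (ι → ℝ) → ℝ} (hf : IsPoly d f) (hg : IsPoly e g) :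
    IsPoly (d + e) fun x => f x * g x := by
  obtain ⟨p, h1, h2⟩ := hf
  obtain ⟨q, h3, h4⟩ := hg
  refine ⟨p * q, (MvPolynomial.totalDegree_mul p q).trans (add_le_add h1 h3), fun x => ?_⟩
  rw [map_mul, h2, h4]

end

section

variable {n : ℕ}

/-- The configuration with the given coordinates. -/
def conf (x : Fin n × Bool → ℝ) (c : Fin n) : ℝ × ℝ := (x (c, false), x (c, true))

/-- The coordinates of a configuration. -/
def coords (v : Fin n → ℝ × ℝ) (p : Fin n × Bool) : ℝ := if p.2 then (v p.1).2 else (v p.1).1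

theorem conf_coords (v : Fin n → ℝ × ℝ) : conf (coords v) = v := by
  funext c
  simp [conf, coords]

/-- The functions whose signs determine the visibility graph. -/
noncomputable def fn (v : Fin n → ℝ × ℝ) (i j : Fin n) (κ₁ κ₂ : Fin n ⊕ Fin n) (c : Fin n)
    (a : Fin 6) : ℝ :=
  if a = 0 then den v i j κ₁
  else if a = 1 then num v i j κ₁ * den v i j κ₁
  else if a = 2 then (den v i j κ₁ - num v i j κ₁) * den v i j κ₁
  else if a = 3 then
    (2 * (den v i j κ₁ * den v i j κ₂) * ((v c).1 - (v i).1) -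
      (num v i j κ₁ * den v i j κ₂ + num v i j κ₂ * den v i j κ₁) * ((v j).1 - (v i).1)) *
      (den v i j κ₁ * den v i j κ₂)
  else if a = 4 then
    (2 * (den v i j κ₁ * den v i j κ₂) * ((v c).2 - (v i).2) -
      (num v i j κ₁ * den v i j κ₂ + num v i j κ₂ * den v i j κ₁) * ((v j).2 - (v i).2)) *
      (den v i j κ₁ * den v i j κ₂)
  else
    (2 * (den v i j κ₁ * den v i j κ₂) * cr (v (next c) - v c) (v i - v c) +
      (num v i j κ₁ * den v i j κ₂ + num v i j κ₂ * den v i j κ₁) *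
        cr (v (next c) - v c) (v j - v i)) *
      (den v i j κ₁ * den v i j κ₂)

theorem sign_scale {x y d : ℝ} (hd : 0 < d) (h : y = x * d) :
    SignType.sign x = SignType.sign y := by
  rw [h, sign_mul, sign_pos hd, mul_one]

/-- Equal signs give the same visibility graph. -/
theorem visGraph_eq {v v' : Fin n → ℝ × ℝ} {P P' : Set (ℝ × ℝ)} (h : IsPolygon v P)
    (h' : IsPolygon v' P') (hs : ∀ i j κ₁ κ₂ c a,
      SignType.sign (fn v i j κ₁ κ₂ c a) = SignType.sign (fn v' i j κ₁ κ₂ c a)) :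
    visGraph v P = visGraph v' P' := by
  -- the transfer in one direction
  have key : ∀ (v v' : Fin n → ℝ × ℝ) (P P' : Set (ℝ × ℝ)), IsPolygon v P → IsPolygon v' P' →
      (∀ i j κ₁ κ₂ c a,
        SignType.sign (fn v i j κ₁ κ₂ c a) = SignType.sign (fn v' i j κ₁ κ₂ c a)) →
      ∀ i j, (visGraph v P).Adj i j → (visGraph v' P').Adj i j := by
    intro v v' P P' h h' hs i j hadj
    obtain ⟨hij, hvis⟩ := hadj
    refine ⟨hij, ?_⟩
    rw [visible_iff h hij] at hvis
    rw [visible_iff h' hij]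
    intro κ₁ κ₂ hd1' hd2' ht1' ht2'
    have c0 : Fin n := i
    -- the denominators
    have hden : ∀ κ, den v' i j κ ≠ 0 → den v i j κ ≠ 0 := by
      intro κ hne h0
      apply hne
      have := hs i j κ κ c0 0
      simp only [fn, if_true] at this
      rw [h0, sign_zero] at this
      exact sign_eq_zero_iff.1 this.symm
    have hrange : ∀ κ, den v' i j κ ≠ 0 → (0 ≤ tt v' i j κ ∧ tt v' i j κ ≤ 1) →
        (0 ≤ tt v i j κ ∧ tt v i j κ ≤ 1) := by
      intro κ hne hr
      have hne' := hden κ hne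
      have h1 := hs i j κ κ c0 1
      have h2 := hs i j κ κ c0 2
      have e10 : (1 : Fin 6) ≠ 0 := by decide
      have e20 : (2 : Fin 6) ≠ 0 := by decide
      have e21 : (2 : Fin 6) ≠ 1 := by decide
      simp only [fn, e10, if_false, if_true] at h1
      simp only [fn, e20, e21, if_false, if_true] at h2
      have hsq : ∀ (w : Fin n → ℝ × ℝ), den w i j κ ≠ 0 → 0 < den w i j κ * den w i j κ :=
        fun w hw => mul_self_pos.2 hw
      have s1 : ∀ (w : Fin n → ℝ × ℝ), den w i j κ ≠ 0 →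
          SignType.sign (tt w i j κ) = SignType.sign (num w i j κ * den w i j κ) := by
        intro w hw
        apply sign_scale (hsq w hw)
        unfold tt
        field_simp
      have s2 : ∀ (w : Fin n → ℝ × ℝ), den w i j κ ≠ 0 →
          SignType.sign (1 - tt w i j κ) =
            SignType.sign ((den w i j κ - num w i j κ) * den w i j κ) := by
        intro w hw
        apply sign_scale (hsq w hw)
        unfold tt
        field_simp
      constructor
      · rw [← sign_nonneg_iff, s1 v hne', h1, ← s1 v' hne, sign_nonneg_iff]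
        exact hr.1
      · rw [← sub_nonneg, ← sign_nonneg_iff, s2 v hne', h2, ← s2 v' hne, sign_nonneg_iff,
          sub_nonneg]
        exact hr.2
    have hd1 := hden κ₁ hd1'
    have hd2 := hden κ₂ hd2'
    have hP := hvis κ₁ κ₂ hd1 hd2 (hrange κ₁ hd1' ht1') (hrange κ₂ hd2' ht2')
    refine (mem_of_sameSign h h' ?_).1 hP
    have hpos : ∀ (w : Fin n → ℝ × ℝ), den w i j κ₁ ≠ 0 → den w i j κ₂ ≠ 0 →
        0 < 2 * (den w i j κ₁ * den w i j κ₂) * (den w i j κ₁ * den w i j κ₂) := by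
      intro w h1 h2
      have : 0 < (den w i j κ₁ * den w i j κ₂) * (den w i j κ₁ * den w i j κ₂) :=
        mul_self_pos.2 (mul_ne_zero h1 h2)
      linarith
    intro c
    have f3 : ∀ (w : Fin n → ℝ × ℝ), den w i j κ₁ ≠ 0 → den w i j κ₂ ≠ 0 →
        SignType.sign (w c - gam w i j ((tt w i j κ₁ + tt w i j κ₂) / 2)).1 =
          SignType.sign (fn w i j κ₁ κ₂ c 3) := by
      intro w h1 h2
      apply sign_scale (hpos w h1 h2)
      have e0 : (3 : Fin 6) ≠ 0 := by decide
      have e1 : (3 : Fin 6) ≠ 1 := by decide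
      have e2 : (3 : Fin 6) ≠ 2 := by decide
      simp only [fn, e0, e1, e2, if_false, if_true, tt, gam, Prod.fst_sub, Prod.fst_add,
        Prod.smul_fst, smul_eq_mul]
      field_simp
      ring
    have f4 : ∀ (w : Fin n → ℝ × ℝ), den w i j κ₁ ≠ 0 → den w i j κ₂ ≠ 0 →
        SignType.sign (w c - gam w i j ((tt w i j κ₁ + tt w i j κ₂) / 2)).2 =
          SignType.sign (fn w i j κ₁ κ₂ c 4) := by
      intro w h1 h2
      apply sign_scale (hpos w h1 h2)
      have e0 : (4 : Fin 6) ≠ 0 := by decide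
      have e1 : (4 : Fin 6) ≠ 1 := by decide
      have e2 : (4 : Fin 6) ≠ 2 := by decide
      have e3 : (4 : Fin 6) ≠ 3 := by decide
      simp only [fn, e0, e1, e2, e3, if_false, if_true, tt, gam, Prod.snd_sub, Prod.snd_add,
        Prod.smul_snd, smul_eq_mul]
      field_simp
      ring
    have f5 : ∀ (w : Fin n → ℝ × ℝ), den w i j κ₁ ≠ 0 → den w i j κ₂ ≠ 0 →
        SignType.sign (cr (w (next c) - w c)
          (gam w i j ((tt w i j κ₁ + tt w i j κ₂) / 2) - w c)) =
          SignType.sign (fn w i j κ₁ κ₂ c 5) := by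
      intro w h1 h2
      apply sign_scale (hpos w h1 h2)
      have e0 : (5 : Fin 6) ≠ 0 := by decide
      have e1 : (5 : Fin 6) ≠ 1 := by decide
      have e2 : (5 : Fin 6) ≠ 2 := by decide
      have e3 : (5 : Fin 6) ≠ 3 := by decide
      have e4 : (5 : Fin 6) ≠ 4 := by decide
      simp only [fn, e0, e1, e2, e3, e4, if_false, tt, gam, cr, Prod.fst_sub, Prod.fst_add,
        Prod.smul_fst, Prod.snd_sub, Prod.snd_add, Prod.smul_snd, smul_eq_mul]
      field_simp
      ring
    refine ⟨?_, ?_, ?_⟩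
    · rw [f3 v hd1 hd2, f3 v' hd1' hd2', hs]
    · rw [f4 v hd1 hd2, f4 v' hd1' hd2', hs]
    · rw [f5 v hd1 hd2, f5 v' hd1' hd2', hs]
  ext i j
  exact ⟨key v v' P P' h h' hs i j,
    key v' v P' P h' h (fun i j κ₁ κ₂ c a => (hs i j κ₁ κ₂ c a).symm) i j⟩

/-! ### Degrees -/

theorem poly1 (c : Fin n) : IsPoly 1 fun x : Fin n × Bool → ℝ => (conf x c).1 :=
  IsPoly.coord (c, false)

theorem poly2 (c : Fin n) : IsPoly 1 fun x : Fin n × Bool → ℝ => (conf x c).2 :=
  IsPoly.coord (c, true)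

theorem poly_cr (a b c d : Fin n) :
    IsPoly 2 fun x : Fin n × Bool → ℝ => cr (conf x a - conf x b) (conf x c - conf x d) := by
  unfold cr
  exact (((poly1 a).sub (poly1 b)).mul ((poly2 c).sub (poly2 d))).sub
    (((poly2 a).sub (poly2 b)).mul ((poly1 c).sub (poly1 d)))

theorem poly_num (i j : Fin n) (κ : Fin n ⊕ Fin n) :
    IsPoly 2 fun x : Fin n × Bool → ℝ => num (conf x) i j κ := by
  rcases κ with c | c
  · exact (((poly1 c).sub (poly1 i)).mul ((poly1 j).sub (poly1 i))).add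
      (((poly2 c).sub (poly2 i)).mul ((poly2 j).sub (poly2 i)))
  · exact poly_cr _ _ _ _

theorem poly_den (i j : Fin n) (κ : Fin n ⊕ Fin n) :
    IsPoly 2 fun x : Fin n × Bool → ℝ => den (conf x) i j κ := by
  rcases κ with c | c
  · exact (((poly1 j).sub (poly1 i)).mul ((poly1 j).sub (poly1 i))).add
      (((poly2 j).sub (poly2 i)).mul ((poly2 j).sub (poly2 i)))
  · exact poly_cr _ _ _ _

theorem poly_fn (i j : Fin n) (κ₁ κ₂ : Fin n ⊕ Fin n) (c : Fin n) (a : Fin 6) :
    IsPoly 10 fun x : Fin n × Bool → ℝ => fn (conf x) i j κ₁ κ₂ c a := by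
  have hd1 := poly_den i j κ₁
  have hd2 := poly_den i j κ₂
  have hn1 := poly_num i j κ₁
  have hn2 := poly_num i j κ₂
  have hdd : IsPoly 4 fun x : Fin n × Bool → ℝ =>
      den (conf x) i j κ₁ * den (conf x) i j κ₂ := hd1.mul hd2
  have hnd : IsPoly 4 fun x : Fin n × Bool → ℝ =>
      num (conf x) i j κ₁ * den (conf x) i j κ₂ + num (conf x) i j κ₂ * den (conf x) i j κ₁ :=
    (hn1.mul hd2).add (hn2.mul hd1)
  have hdd2 : IsPoly 4 fun x : Fin n × Bool → ℝ =>
      2 * (den (conf x) i j κ₁ * den (conf x) i j κ₂) := by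
    have := (IsPoly.const (ι := Fin n × Bool) 2).mul hdd
    exact this.mono (by norm_num)
  unfold fn
  split_ifs
  · exact hd1.mono (by norm_num)
  · exact (hn1.mul hd1).mono (by norm_num)
  · exact ((hd1.sub hn1).mul hd1).mono (by norm_num)
  · exact (((hdd2.mul ((poly1 c).sub (poly1 i))).sub
      (hnd.mul ((poly1 j).sub (poly1 i)))).mul hdd).mono (by norm_num)
  · exact (((hdd2.mul ((poly2 c).sub (poly2 i))).sub
      (hnd.mul ((poly2 j).sub (poly2 i)))).mul hdd).mono (by norm_num)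
  · exact (((hdd2.mul (poly_cr _ _ _ _)).add (hnd.mul (poly_cr _ _ _ _))).mul hdd).mono
      (by norm_num)

/-- The index type of the family. -/
abbrev JJ (n : ℕ) : Type :=
  (Fin n × Fin n) × ((Fin n ⊕ Fin n) × (Fin n ⊕ Fin n)) × (Fin n × Fin 6)

noncomputable def ff (v : Fin n → ℝ × ℝ) (q : JJ n) : ℝ :=
  fn v q.1.1 q.1.2 q.2.1.1 q.2.1.2 q.2.2.1 q.2.2.2

/-- The sign vector of a configuration. -/
noncomputable def sv (v : Fin n → ℝ × ℝ) : JJ n → SignType := fun q => SignType.sign (ff v q)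

theorem card_JJ (n : ℕ) : Fintype.card (JJ n) = 24 * n ^ 5 := by
  simp only [JJ, Fintype.card_prod, Fintype.card_sum, Fintype.card_fin]
  ring

/-- The number of labelled visibility graphs. -/
theorem upper_count (n : ℕ) :
    N n ≤ (960 * n ^ 5 + 1) ^ (2 * n) := by
  classical
  -- a polygon for every class
  let C : Set (Set (SimpleGraph (Fin n))) := {C | ∃ (v : Fin n → ℝ × ℝ) (P : Set (ℝ × ℝ)),
    IsPolygon v P ∧ C = isoClass (visGraph v P)}
  have hN : N n = C.ncard := rfl
  have hex : ∀ c : C, ∃ (v : Fin n → ℝ × ℝ) (P : Set (ℝ × ℝ)),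
    IsPolygon v P ∧ (c : Set (SimpleGraph (Fin n))) = isoClass (visGraph v P) := fun c => c.2
  choose vv PP hvP hcl using hex
  have hinj : Function.Injective fun c : C => sv (vv c) := by
    intro c c' hcc
    have h1 : visGraph (vv c) (PP c) = visGraph (vv c') (PP c') := by
      apply visGraph_eq (hvP c) (hvP c')
      intro i j κ₁ κ₂ b a
      exact congrFun hcc ((i, j), (κ₁, κ₂), (b, a))
    apply Subtype.ext
    rw [hcl c, hcl c', h1]
  have hfin : Finite C := Set.toFinite C
  have : Fintype C := Fintype.ofFinite C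
  let S : Finset (JJ n → SignType) := Finset.univ.image fun c : C => sv (vv c)
  have hS : S.card = C.ncard := by
    rw [Finset.card_image_of_injective _ hinj, Finset.card_univ, ← Nat.card_eq_fintype_card,
      Nat.card_coe_set_eq]
  have hpoly : ∀ q : JJ n, ∃ p : MvPolynomial (Fin n × Bool) ℝ, p.totalDegree ≤ 10 ∧
      ∀ x, MvPolynomial.eval x p = ff (conf x) q := fun q => poly_fn _ _ _ _ _ _
  choose p hp1 hp2 using hpoly
  have hW := Pool.Agent.H247R2.Warren.sign_count p 10 hp1 S (by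
    intro σ hσ
    obtain ⟨c, -, rfl⟩ := Finset.mem_image.1 hσ
    refine ⟨coords (vv c), fun q => ?_⟩
    rw [hp2, conf_coords]
    rfl)
  rw [hS, ← hN, card_JJ] at hW
  refine hW.trans (le_of_eq ?_)
  have e1 : Fintype.card (Fin n × Bool) = 2 * n := by
    simp [mul_comm]
  rw [e1]
  congr 1
  ring

end

end Pool.Agent.T6.H89.Vis
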