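import Mathlib

/-!
# Simple polygons and their visibility graphs

Definitions for `MP_af711c_co`.
-/

set_option autoImplicit false

namespace Pool.Agent.T6.H89.Vis

/-- The cyclic successor on `Fin n`. -/
def next {n : ℕ} (i : Fin n) : Fin n := ⟨(i.1 + 1) % n, Nat.mod_lt _ i.pos⟩

/-- The `i`-th edge of the closed polygonal curve with the vertices `v 0, …, v (n-1)`: the closed
segment from `v i` to the cyclically next vertex. -/
def edge {n : ℕ} (v : Fin n → ℝ × ℝ) (i : Fin n) : Set (ℝ × ℝ) :=
  segment ℝ (v i) (v (next i))

/-- The closed polygonal curve with the vertices `v 0, …, v (n-1)`. -/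
def curve {n : ℕ} (v : Fin n → ℝ × ℝ) : Set (ℝ × ℝ) := ⋃ i, edge v i

/-- The closed polygonal curve with the `n ≥ 3` vertices `v 0, …, v (n-1)` has no
self-intersections: the vertices are distinct, consecutive edges meet only in their common vertex,
and any two other edges are disjoint. -/
structure IsSimpleClosed {n : ℕ} (v : Fin n → ℝ × ℝ) : Prop where
  three_le : 3 ≤ n
  injective : Function.Injective v
  consecutive : ∀ i, edge v i ∩ edge v (next i) = {v (next i)}
  disjoint : ∀ i j, i ≠ j → next i ≠ j → next j ≠ i → Disjoint (edge v i) (edge v j)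

/-- `P` is the simple polygon with the vertices `v 0, …, v (n-1)` (in this cyclic order): the
closed polygonal curve through them has no self-intersections, and `P` is the closed region bounded
by it, that is, `P` is compact, it is the closure of its interior, its interior is connected, and
its topological boundary is the curve. -/
structure IsPolygon {n : ℕ} (v : Fin n → ℝ × ℝ) (P : Set (ℝ × ℝ)) : Prop where
  simple : IsSimpleClosed v
  compact : IsCompact P
  closure_interior : closure (interior P) = P
  connected : IsConnected (interior P)
  boundary : frontier P = curve v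

/-- The visibility graph of the polygon `P` with the vertices `v 0, …, v (n-1)`: two distinct
vertices are adjacent if the closed segment between them is contained in `P`. -/
def visGraph {n : ℕ} (v : Fin n → ℝ × ℝ) (P : Set (ℝ × ℝ)) : SimpleGraph (Fin n) where
  Adj i j := i ≠ j ∧ segment ℝ (v i) (v j) ⊆ P
  symm := ⟨fun i j h => ⟨h.1.symm, by rw [segment_symm]; exact h.2⟩⟩
  loopless := ⟨fun i h => h.1 rfl⟩

/-- The isomorphism class of a graph on `Fin n`. -/
def isoClass {n : ℕ} (G : SimpleGraph (Fin n)) : Set (SimpleGraph (Fin n)) :=
  {H | Nonempty (H ≃g G)}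

/-- `N(n)`: the number of isomorphism classes of visibility graphs of simple polygons with `n`
vertices. -/
noncomputable def N (n : ℕ) : ℕ :=
  Set.ncard {C : Set (SimpleGraph (Fin n)) |
    ∃ (v : Fin n → ℝ × ℝ) (P : Set (ℝ × ℝ)), IsPolygon v P ∧ C = isoClass (visGraph v P)}

/-- No three consecutive vertices are collinear: every vertex is a proper corner. -/
def NoFlatVertex {n : ℕ} (v : Fin n → ℝ × ℝ) : Prop :=
  ∀ i, ¬ Collinear ℝ {v i, v (next i), v (next (next i))}

/-- The number of isomorphism classes of visibility graphs of simple polygons with `n` vertices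
none of which is flat (no interior angle is equal to `π`). -/
noncomputable def NStrict (n : ℕ) : ℕ :=
  Set.ncard {C : Set (SimpleGraph (Fin n)) |
    ∃ (v : Fin n → ℝ × ℝ) (P : Set (ℝ × ℝ)), IsPolygon v P ∧ NoFlatVertex v ∧
      C = isoClass (visGraph v P)}

end Pool.Agent.T6.H89.Vis
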