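import Pool.Agent.T6.H89.Vis.Family

/-!
# Counting the isomorphism classes
-/

set_option autoImplicit false

open Set Topology

namespace Pool.Agent.T6.H89.Vis

/-- The abstract counting lemma. -/
theorem count_lemma {n : ℕ} {F : Type*} [Fintype F] (G : F → SimpleGraph (Fin n))
    (col : Fin n → Fin 4)
    (h : ∀ r r' (φ : G r ≃g G r'), (∀ x, col (φ x) = col x) → r = r')
    (C : Set (Set (SimpleGraph (Fin n)))) (hC : ∀ r, isoClass (G r) ∈ C) :
    Fintype.card F ≤ C.ncard * 4 ^ n := by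
  classical
  let rep : Set (SimpleGraph (Fin n)) → SimpleGraph (Fin n) := fun c =>
    if h : c.Nonempty then h.some else ⊥
  have hrep : ∀ r, Nonempty (rep (isoClass (G r)) ≃g G r) := by
    intro r
    have hne : (isoClass (G r)).Nonempty := ⟨G r, ⟨SimpleGraph.Iso.refl⟩⟩
    have : rep (isoClass (G r)) = hne.some := dif_pos hne
    rw [this]
    exact hne.some_mem
  let φ : ∀ r, rep (isoClass (G r)) ≃g G r := fun r => (hrep r).some
  let Ψ : F → C × (Fin n → Fin 4) := fun r => (⟨isoClass (G r), hC r⟩, fun x => col (φ r x))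
  have hinj : Function.Injective Ψ := by
    intro r r' hr
    simp only [Ψ, Prod.mk.injEq, Subtype.mk.injEq] at hr
    obtain ⟨h1, h2⟩ := hr
    have e : rep (isoClass (G r)) = rep (isoClass (G r')) := by rw [h1]
    let ψ : G r ≃g G r' :=
      { toEquiv := (φ r).toEquiv.symm.trans (φ r').toEquiv
        map_rel_iff' := by
          intro a b
          have h3 : (G r').Adj (φ r' ((φ r).symm a)) (φ r' ((φ r).symm b)) ↔
              (rep (isoClass (G r'))).Adj ((φ r).symm a) ((φ r).symm b) := (φ r').map_rel_iff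
          have h4 : (rep (isoClass (G r))).Adj ((φ r).symm a) ((φ r).symm b) ↔ (G r).Adj a b :=
            (φ r).symm.map_rel_iff
          have h5 : (rep (isoClass (G r'))).Adj ((φ r).symm a) ((φ r).symm b) ↔
              (rep (isoClass (G r))).Adj ((φ r).symm a) ((φ r).symm b) :=
            iff_of_eq (congrFun (congrFun (congrArg SimpleGraph.Adj e.symm) _) _)
          exact (h3.trans h5).trans h4 }
    refine h r r' ψ ?_
    intro x
    have h3 : col (φ r ((φ r).symm x)) = col (φ r' ((φ r).symm x)) := congrFun h2 _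
    have h4 : φ r ((φ r).symm x) = x := (φ r).apply_symm_apply x
    rw [h4] at h3
    exact h3.symm
  have hcard := Nat.card_le_card_of_injective Ψ hinj
  rw [Nat.card_eq_fintype_card, Nat.card_prod, Nat.card_coe_set_eq] at hcard
  simpa using hcard

section

variable (k t : ℕ)

/-- The colour of a vertex: `1` for guns, `2` for right targets, `3` for left targets. -/
def col {n : ℕ} (x : Fin n) : Fin 4 :=
  if x.1 % 2 = 0 ∧ 2 ≤ x.1 ∧ x.1 ≤ 2 * k then 1
  else if 2 * k + 3 + t ≤ x.1 ∧ x.1 ≤ 3 * k + 2 + t then 2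
  else if 3 * k + 4 + t ≤ x.1 ∧ x.1 ≤ 4 * k + 3 + t then 3
  else 0

variable {k t}

theorem col_one {n : ℕ} {x : Fin n} :
    col k t x = 1 ↔ (x.1 % 2 = 0 ∧ 2 ≤ x.1 ∧ x.1 ≤ 2 * k) := by
  unfold col
  split_ifs with h1 h2 h3
  · simp [h1]
  · simp [h1]
  · simp [h1]
  · simp [h1]

theorem col_two {n : ℕ} {x : Fin n} :
    col k t x = 2 ↔ (2 * k + 3 + t ≤ x.1 ∧ x.1 ≤ 3 * k + 2 + t) := by
  unfold col
  split_ifs with h1 h2 h3
  · constructor
    · intro h
      exact absurd h (by decide)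
    · intro h
      omega
  · simp [h2]
  · simp only [h2, iff_false]
    decide
  · simp [h2]

theorem col_three {n : ℕ} {x : Fin n} :
    col k t x = 3 ↔ (3 * k + 4 + t ≤ x.1 ∧ x.1 ≤ 4 * k + 3 + t) := by
  unfold col
  split_ifs with h1 h2 h3
  · constructor
    · intro h
      exact absurd h (by decide)
    · intro h
      omega
  · constructor
    · intro h
      exact absurd h (by decide)
    · intro h
      omega
  · simp [h3]
  · simp [h3]

end

/-- Extend a function on `Fin k`. -/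
def ext {k : ℕ} (r : Fin k → Fin (k + 1)) (i : ℕ) : ℕ := if h : i < k then (r ⟨i, h⟩ : ℕ) else 0

theorem ext_le {k : ℕ} (r : Fin k → Fin (k + 1)) (i : ℕ) : ext r i ≤ k := by
  unfold ext
  split_ifs with h
  · exact Nat.lt_succ_iff.1 (r ⟨i, h⟩).2
  · exact Nat.zero_le _

section

variable {k t : ℕ} (hk : 1 ≤ k) (ht : t ≤ 3)

noncomputable def MM (r : Fin k → Fin (k + 1)) : Mono := fam k t (ext r) hk ht (ext_le r)

/-- The visibility graph of the member of the family. -/
noncomputable def GG (r : Fin k → Fin (k + 1)) :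
    SimpleGraph (Fin (2 * k + 2 + (2 * k + t + 2))) :=
  visGraph (MM hk ht r).v (MM hk ht r).P

theorem GG_adj (r : Fin k → Fin (k + 1)) (x y : Fin (2 * k + 2 + (2 * k + t + 2))) :
    (GG hk ht r).Adj x y ↔ x ≠ y ∧ segment ℝ ((MM hk ht r).vv x.1) ((MM hk ht r).vv y.1) ⊆
      (MM hk ht r).P := Iff.rfl

theorem nb_right (r : Fin k → Fin (k + 1)) {i : ℕ} (hi : i < k)
    {x : Fin (2 * k + 2 + (2 * k + t + 2))} (hx : x.1 = 2 * i + 2) :
    Set.ncard {y | col k t y = 2 ∧ (GG hk ht r).Adj x y} = ext r i := by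
  rw [← Set.ncard_image_of_injective _ Fin.val_injective]
  have hle := ext_le r i
  have : Fin.val '' {y | col k t y = 2 ∧ (GG hk ht r).Adj x y} =
      ↑(Finset.Icc (3 * k + 3 + t - ext r i) (3 * k + 2 + t)) := by
    ext y
    simp only [mem_image, mem_ofPred_eq, Finset.coe_Icc, mem_Icc]
    constructor
    · rintro ⟨y, ⟨h1, h2⟩, rfl⟩
      rw [col_two] at h1
      rw [GG_adj, hx] at h2
      obtain ⟨j, hj⟩ : ∃ j, y.1 = 4 * k + 4 + t - (k + 1 + j) ∧ 1 ≤ j ∧ j ≤ k :=
        ⟨3 * k + 3 + t - y.1, by omega, by omega, by omega⟩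
      rw [hj.1] at h2
      have := (visR hk ht (ext_le r) hi hj.2.1 hj.2.2).1 h2.2
      omega
    · rintro ⟨h1, h2⟩
      have h3 : y < 2 * k + 2 + (2 * k + t + 2) := by omega
      refine ⟨⟨y, h3⟩, ⟨?_, ?_⟩, rfl⟩
      · rw [col_two]
        simp only
        omega
      · rw [GG_adj, hx]
        refine ⟨fun h => ?_, ?_⟩
        · rw [h] at hx
          simp only at hx
          omega
        · obtain ⟨j, hj⟩ : ∃ j, y = 4 * k + 4 + t - (k + 1 + j) ∧ 1 ≤ j ∧ j ≤ k ∧ j ≤ ext r i :=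
            ⟨3 * k + 3 + t - y, by omega, by omega, by omega, by omega⟩
          simp only
          rw [hj.1]
          exact (visR hk ht (ext_le r) hi hj.2.1 hj.2.2.1).2 hj.2.2.2
  rw [this, Set.ncard_coe_finset, Nat.card_Icc]
  omega

theorem nb_left (r : Fin k → Fin (k + 1)) {i : ℕ} (hi : i < k)
    {x : Fin (2 * k + 2 + (2 * k + t + 2))} (hx : x.1 = 2 * i + 2) :
    Set.ncard {y | col k t y = 3 ∧ (GG hk ht r).Adj x y} = i + 1 := by
  rw [← Set.ncard_image_of_injective _ Fin.val_injective]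
  have : Fin.val '' {y | col k t y = 3 ∧ (GG hk ht r).Adj x y} =
      ↑(Finset.Icc (3 * k + 4 + t) (3 * k + 4 + t + i)) := by
    ext y
    simp only [mem_image, mem_ofPred_eq, Finset.coe_Icc, mem_Icc]
    constructor
    · rintro ⟨y, ⟨h1, h2⟩, rfl⟩
      rw [col_three] at h1
      rw [GG_adj, hx] at h2
      obtain ⟨j, hj⟩ : ∃ j, y.1 = 4 * k + 4 + t - (k + 1 - j) ∧ 1 ≤ j ∧ j ≤ k :=
        ⟨y.1 - (3 * k + 3 + t), by omega, by omega, by omega⟩
      rw [hj.1] at h2
      have := (visL hk ht (ext_le r) hi hj.2.1 hj.2.2).1 h2.2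
      omega
    · rintro ⟨h1, h2⟩
      have h3 : y < 2 * k + 2 + (2 * k + t + 2) := by omega
      refine ⟨⟨y, h3⟩, ⟨?_, ?_⟩, rfl⟩
      · rw [col_three]
        simp only
        omega
      · rw [GG_adj, hx]
        refine ⟨fun h => ?_, ?_⟩
        · rw [h] at hx
          simp only at hx
          omega
        · obtain ⟨j, hj⟩ : ∃ j, y = 4 * k + 4 + t - (k + 1 - j) ∧ 1 ≤ j ∧ j ≤ k ∧ j ≤ i + 1 :=
            ⟨y - (3 * k + 3 + t), by omega, by omega, by omega, by omega⟩
          simp only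
          rw [hj.1]
          exact (visL hk ht (ext_le r) hi hj.2.1 hj.2.2.1).2 hj.2.2.2
  rw [this, Set.ncard_coe_finset, Nat.card_Icc]
  omega

/-- Colour-preserving isomorphisms determine the parameters. -/
theorem determined (r r' : Fin k → Fin (k + 1)) (φ : GG hk ht r ≃g GG hk ht r')
    (hφ : ∀ x, col k t (φ x) = col k t x) : r = r' := by
  have key : ∀ (c : Fin 4) (x : Fin (2 * k + 2 + (2 * k + t + 2))),
      Set.ncard {y | col k t y = c ∧ (GG hk ht r).Adj x y} =
        Set.ncard {y | col k t y = c ∧ (GG hk ht r').Adj (φ x) y} := by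
    intro c x
    rw [← Set.ncard_image_of_injective _ φ.injective]
    congr 1
    ext y
    constructor
    · rintro ⟨z, ⟨h1, h2⟩, rfl⟩
      exact ⟨(hφ z).trans h1, φ.map_rel_iff.2 h2⟩
    · rintro ⟨h1, h2⟩
      refine ⟨φ.symm y, ⟨?_, ?_⟩, φ.apply_symm_apply y⟩
      · rw [← hφ, φ.apply_symm_apply]
        exact h1
      · rw [← φ.map_rel_iff, φ.apply_symm_apply]
        exact h2
  funext i
  have hi := i.2
  let x : Fin (2 * k + 2 + (2 * k + t + 2)) := ⟨2 * i.1 + 2, by omega⟩
  have hx : x.1 = 2 * i.1 + 2 := rfl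
  have hcx : col k t x = 1 := by
    rw [col_one]
    omega
  have hcy := hφ x
  rw [hcx, col_one] at hcy
  obtain ⟨i', hi', hy⟩ : ∃ i', i' < k ∧ (φ x).1 = 2 * i' + 2 :=
    ⟨((φ x).1 - 2) / 2, by omega, by omega⟩
  have h1 := key 3 x
  rw [nb_left hk ht r hi hx, nb_left hk ht r' hi' hy] at h1
  obtain rfl : i.1 = i' := by omega
  have h2 := key 2 x
  rw [nb_right hk ht r hi hx, nb_right hk ht r' hi hy] at h2
  unfold ext at h2
  rw [dif_pos hi, dif_pos hi] at h2
  exact Fin.ext h2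

/-- The count. -/
theorem card_le (C : Set (Set (SimpleGraph (Fin (2 * k + 2 + (2 * k + t + 2))))))
    (hC : ∀ r, isoClass (GG hk ht r) ∈ C) :
    (k + 1) ^ k ≤ C.ncard * 4 ^ (2 * k + 2 + (2 * k + t + 2)) := by
  have := count_lemma (GG hk ht) (col k t) (determined hk ht) C hC
  simpa using this

end

end Pool.Agent.T6.H89.Vis
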