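import Pool.Agent.T6.H89.Vis.See

/-!
# A family of `(k+1)^k` polygons
-/

set_option autoImplicit false

open Set Topology

namespace Pool.Agent.T6.H89.Vis

noncomputable def SS (k : ℕ) : ℝ := 16 * ((k : ℝ) + 4) ^ 3

theorem SS_pos (k : ℕ) : 0 < SS k := by
  unfold SS
  positivity

/-- The widths of the windows. -/
noncomputable def w (k : ℕ) (r : ℕ → ℕ) (s : ℕ) : ℝ :=
  if s % 2 = 0 then (((s / 2 : ℕ) : ℝ) + 3 / 2) / SS k else ((r (s / 2) : ℝ) + 1 / 2) / SS k

theorem w_pos (k : ℕ) (r : ℕ → ℕ) (s : ℕ) : 0 < w k r s := by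
  have := SS_pos k
  unfold w
  split_ifs <;> positivity

theorem w_le (k : ℕ) (r : ℕ → ℕ) (hr : ∀ i, r i ≤ k) (s : ℕ) (hs : s < 2 * k) :
    w k r s ≤ ((k : ℝ) + 1 / 2) / SS k := by
  have h0 := SS_pos k
  unfold w
  split_ifs with h
  · rw [div_le_div_iff_of_pos_right h0]
    have h1 : s / 2 + 1 ≤ k := by omega
    have h2 : ((s / 2 : ℕ) : ℝ) + 1 ≤ k := by exact_mod_cast h1
    linarith
  · rw [div_le_div_iff_of_pos_right h0]
    have h2 : ((r (s / 2) : ℕ) : ℝ) ≤ k := by exact_mod_cast hr _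
    linarith

theorem w_even (k : ℕ) (r : ℕ → ℕ) (i : ℕ) : w k r (2 * i) = ((i : ℝ) + 3 / 2) / SS k := by
  unfold w
  rw [if_pos (by omega)]
  have : 2 * i / 2 = i := by omega
  rw [this]

theorem w_odd (k : ℕ) (r : ℕ → ℕ) (i : ℕ) :
    w k r (2 * i + 1) = ((r i : ℝ) + 1 / 2) / SS k := by
  unfold w
  rw [if_neg (by omega)]
  have : (2 * i + 1) / 2 = i := by omega
  rw [this]

noncomputable def off (k : ℕ) (r : ℕ → ℕ) (s : ℕ) : ℝ := ∑ u ∈ Finset.range s, w k r u

theorem off_succ (k : ℕ) (r : ℕ → ℕ) (s : ℕ) : off k r (s + 1) = off k r s + w k r s :=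
  Finset.sum_range_succ _ _

theorem off_nonneg (k : ℕ) (r : ℕ → ℕ) (s : ℕ) : 0 ≤ off k r s :=
  Finset.sum_nonneg fun u _ => (w_pos k r u).le

theorem off_le (k : ℕ) (r : ℕ → ℕ) (hr : ∀ i, r i ≤ k) (s : ℕ) (hs : s ≤ 2 * k) :
    off k r s ≤ 1 / 4 := by
  have h1 : off k r s ≤ s • (((k : ℝ) + 1 / 2) / SS k) := by
    unfold off
    calc ∑ u ∈ Finset.range s, w k r u ≤ ∑ u ∈ Finset.range s, ((k : ℝ) + 1 / 2) / SS k :=
          Finset.sum_le_sum fun u hu => w_le k r hr u (by rw [Finset.mem_range] at hu; omega)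
      _ = s • (((k : ℝ) + 1 / 2) / SS k) := by rw [Finset.sum_const, Finset.card_range]
  refine h1.trans ?_
  rw [nsmul_eq_mul, ← mul_div_assoc, div_le_iff₀ (SS_pos k)]
  have h2 : (s : ℝ) ≤ 2 * k := by exact_mod_cast hs
  have hk : (0 : ℝ) ≤ k := Nat.cast_nonneg k
  have h3 : (s : ℝ) * ((k : ℝ) + 1 / 2) ≤ 2 * k * (k + 1 / 2) :=
    mul_le_mul_of_nonneg_right h2 (by linarith)
  refine h3.trans ?_
  unfold SS
  nlinarith [mul_nonneg hk hk, mul_nonneg (mul_nonneg hk hk) hk]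

/-- The polygon. -/
noncomputable def fam (k t : ℕ) (r : ℕ → ℕ) (hk : 1 ≤ k) (ht : t ≤ 3) (hr : ∀ i, r i ≤ k) :
    Mono where
  q := 2 * k + 2
  m := 2 * k + t + 2
  XL s := if s = 0 then -((k : ℝ) + 1) else if s ≤ 2 * k + 1 then off k r (s - 1)
    else (k : ℝ) + t + 1
  YL s := if s % 2 = 0 ∧ 0 < s ∧ s < 2 * k + 2 then -1 else 0
  XU s := (s : ℝ) - 1 - k
  YU s := if s = 0 ∨ s = 2 * k + t + 2 then 0 else SS k - 1 - ((s : ℝ) - 1 - k) ^ 2
  hq := by omega
  hm := by omega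
  hXL := by
    intro i hi
    have hk0 : (0 : ℝ) ≤ k := Nat.cast_nonneg k
    have ht0 : (0 : ℝ) ≤ t := Nat.cast_nonneg t
    rcases Nat.eq_zero_or_pos i with h | h
    · subst h
      have := off_nonneg k r 0
      rw [if_pos rfl, if_neg (by omega), if_pos (by omega)]
      simp only [zero_add, Nat.sub_self]
      linarith
    · obtain ⟨s, rfl⟩ : ∃ s, i = s + 1 := ⟨i - 1, by omega⟩
      rw [if_neg (Nat.succ_ne_zero s), if_neg (Nat.succ_ne_zero (s + 1)),
        if_pos (by omega : s + 1 ≤ 2 * k + 1)]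
      split_ifs with h1
      · simp only [Nat.add_sub_cancel]
        rw [off_succ]
        linarith [w_pos k r s]
      · simp only [Nat.add_sub_cancel]
        have := off_le k r hr s (by omega)
        linarith
  hXU := by
    intro i hi
    push_cast
    linarith
  hX0 := by
    rw [if_pos rfl]
    push_cast
    ring
  hXe := by
    rw [if_neg (by omega), if_neg (by omega)]
    push_cast
    ring
  hYL := by
    intro i hi
    split_ifs <;> norm_num
  hYL0 := by simp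
  hYLe := by
    rw [if_neg (by omega)]
  hYU0 := by simp
  hYUe := by simp
  hYU := by
    intro i h1 h2
    rw [if_neg (by omega)]
    have h3 : (i : ℝ) - 1 - k ≤ k + 3 := by
      have : i ≤ 2 * k + 4 := by omega
      have : (i : ℝ) ≤ 2 * k + 4 := by exact_mod_cast this
      linarith
    have h4 : -((k : ℝ) + 3) ≤ (i : ℝ) - 1 - k := by
      have : (1 : ℝ) ≤ i := by exact_mod_cast h1
      linarith
    have h5 : ((i : ℝ) - 1 - k) ^ 2 ≤ ((k : ℝ) + 3) ^ 2 := by
      apply sq_le_sq'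
      · exact h4
      · exact h3
    have hk0 : (0 : ℝ) ≤ k := Nat.cast_nonneg k
    unfold SS
    nlinarith [mul_nonneg hk0 hk0, mul_nonneg (mul_nonneg hk0 hk0) hk0]

section

variable {k t : ℕ} {r : ℕ → ℕ} (hk : 1 ≤ k) (ht : t ≤ 3) (hr : ∀ i, r i ≤ k)

theorem fam_q : (fam k t r hk ht hr).q = 2 * k + 2 := rfl
theorem fam_m : (fam k t r hk ht hr).m = 2 * k + t + 2 := rfl

theorem fam_XL {s : ℕ} (h : s ≤ 2 * k) : (fam k t r hk ht hr).XL (s + 1) = off k r s := by
  change (if s + 1 = 0 then -((k : ℝ) + 1) else if s + 1 ≤ 2 * k + 1 then off k r (s + 1 - 1)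
    else (k : ℝ) + t + 1) = _
  rw [if_neg (by omega), if_pos (by omega)]
  simp

theorem fam_XL_zero : (fam k t r hk ht hr).XL 0 = -((k : ℝ) + 1) := rfl

theorem fam_XL_last : (fam k t r hk ht hr).XL (2 * k + 2) = (k : ℝ) + t + 1 := by
  change (if 2 * k + 2 = 0 then -((k : ℝ) + 1) else if 2 * k + 2 ≤ 2 * k + 1 then
    off k r (2 * k + 2 - 1) else (k : ℝ) + t + 1) = _
  rw [if_neg (by omega), if_neg (by omega)]

theorem fam_YL_gun {i : ℕ} (hi : i < k) : (fam k t r hk ht hr).YL (2 * i + 2) = -1 := by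
  change (if (2 * i + 2) % 2 = 0 ∧ 0 < 2 * i + 2 ∧ 2 * i + 2 < 2 * k + 2 then (-1 : ℝ) else 0) = _
  rw [if_pos (by omega)]

theorem fam_YL_odd {i : ℕ} : (fam k t r hk ht hr).YL (2 * i + 1) = 0 := by
  change (if (2 * i + 1) % 2 = 0 ∧ 0 < 2 * i + 1 ∧ 2 * i + 1 < 2 * k + 2 then (-1 : ℝ) else 0) = _
  rw [if_neg (by omega)]

theorem fam_XU (s : ℕ) : (fam k t r hk ht hr).XU s = (s : ℝ) - 1 - k := rfl

theorem fam_YU {s : ℕ} (h1 : 0 < s) (h2 : s < 2 * k + t + 2) :
    (fam k t r hk ht hr).YU s = SS k - 1 - ((s : ℝ) - 1 - k) ^ 2 := by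
  change (if s = 0 ∨ s = 2 * k + t + 2 then 0 else SS k - 1 - ((s : ℝ) - 1 - k) ^ 2) = _
  rw [if_neg (by omega)]

/-- A gun and a right target. -/
theorem visR {i j : ℕ} (hi : i < k) (hj : 1 ≤ j) (hjk : j ≤ k) :
    segment ℝ ((fam k t r hk ht hr).vv (2 * i + 2))
      ((fam k t r hk ht hr).vv (4 * k + 4 + t - (k + 1 + j))) ⊆ (fam k t r hk ht hr).P ↔
      j ≤ r i := by
  set M := fam k t r hk ht hr with hM
  have hq : M.q = 2 * k + 2 := rfl
  have hm : M.m = 2 * k + t + 2 := rfl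
  rw [M.vv_lower (by omega), M.vv_upper (by omega)]
  have e1 : M.q + M.m - (4 * k + 4 + t - (k + 1 + j)) = k + 1 + j := by omega
  rw [e1]
  have hX : M.XU (k + 1 + j) = j := by
    rw [hM, fam_XU]
    push_cast
    ring
  have hY : M.YU (k + 1 + j) = SS k - 1 - (j : ℝ) ^ 2 := by
    rw [hM, fam_YU hk ht hr (by omega) (by omega)]
    push_cast
    ring
  have hg : M.YL (2 * i + 2) = -1 := fam_YL_gun hk ht hr hi
  have ha : M.YL (2 * i + 2 + 1) = 0 := by
    have := fam_YL_odd hk ht hr (i := i + 1)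
    exact this
  have hx : M.XL (2 * i + 2) = off k r (2 * i + 1) := fam_XL hk ht hr (by omega)
  have hx' : M.XL (2 * i + 2 + 1) = off k r (2 * i + 2) := fam_XL hk ht hr (by omega)
  have hx0 := off_nonneg k r (2 * i + 1)
  have hx1 := off_le k r hr (2 * i + 1) (by omega)
  have hx2 := off_le k r hr (2 * i + 2) (by omega)
  have hx3 : off k r (2 * i + 2) - off k r (2 * i + 1) = ((r i : ℝ) + 1 / 2) / SS k := by
    rw [off_succ, w_odd]
    ring
  have hS := SS_pos k
  have hk0 : (0 : ℝ) ≤ k := Nat.cast_nonneg k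
  have hj0 : (1 : ℝ) ≤ j := by exact_mod_cast hj
  have hj1 : (j : ℝ) ≤ k := by exact_mod_cast hjk
  have hjj : (j : ℝ) ^ 2 ≤ (k : ℝ) ^ 2 := by
    apply pow_le_pow_left₀ (by linarith) hj1
  have hr0 : (0 : ℝ) ≤ r i := Nat.cast_nonneg _
  have hr1 : (r i : ℝ) ≤ k := by exact_mod_cast hr i
  have hSk : ((k : ℝ) + 1 / 2) * (k : ℝ) ^ 2 ≤ SS k / 16 := by
    unfold SS
    nlinarith [mul_nonneg hk0 hk0, mul_nonneg (mul_nonneg hk0 hk0) hk0]
  have hSk2 : 1 + (k : ℝ) ^ 2 ≤ SS k := by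
    unfold SS
    nlinarith [mul_nonneg hk0 hk0, mul_nonneg (mul_nonneg hk0 hk0) hk0]
  have hb : ((r i : ℝ) + 1 / 2) * (j : ℝ) ^ 2 ≤ SS k / 16 :=
    (mul_le_mul (by linarith) hjj (by positivity) (by positivity)).trans hSk
  have e2 : (SS k - 1 - (j : ℝ) ^ 2 + 1) * (((r i : ℝ) + 1 / 2) / SS k) =
      (r i : ℝ) + 1 / 2 - ((r i : ℝ) + 1 / 2) * (j : ℝ) ^ 2 / SS k := by
    field_simp
    ring
  have hb' : ((r i : ℝ) + 1 / 2) * (j : ℝ) ^ 2 / SS k ≤ 1 / 16 := by
    rw [div_le_iff₀ hS]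
    linarith
  have hb0 : 0 ≤ ((r i : ℝ) + 1 / 2) * (j : ℝ) ^ 2 / SS k := by positivity
  have hlast : M.XL M.q = (k : ℝ) + t + 1 := fam_XL_last hk ht hr
  have ht0 : (0 : ℝ) ≤ t := Nat.cast_nonneg t
  constructor
  · intro h
    by_contra hcon
    have h1 : r i + 1 ≤ j := by omega
    have h2 : (r i : ℝ) + 1 ≤ j := by exact_mod_cast h1
    refine M.not_seeR (s := 2 * i + 2) (by omega) hg ha ?_ ?_ h
    · rw [hx', hX]
      linarith
    · rw [hX, hY, hx', hx, hx3, e2]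
      linarith
  · intro h
    have h2 : (j : ℝ) ≤ r i := by exact_mod_cast h
    refine M.seeR (s := 2 * i + 2) (by omega) hg ha ?_ ?_ ?_ ?_ ?_
    · rw [hx, hX]
      linarith
    · rw [hlast, hX]
      linarith
    · rw [hY]
      linarith
    · intro x h3 h4
      refine M.U_ge (i := k + 1) (j := k + 1 + j) (by omega) (by omega) ?_ ?_ h4
      · intro s hs1 hs2
        rw [hY]
        have := fam_YU hk ht hr (s := s) (by omega) (by omega)
        rw [← hM] at this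
        rw [this]
        have h5 : (0 : ℝ) ≤ (s : ℝ) - 1 - k := by
          have : ((k + 1 : ℕ) : ℝ) ≤ s := by exact_mod_cast hs1
          push_cast at this
          linarith
        have h6 : (s : ℝ) - 1 - k ≤ j := by
          have : (s : ℝ) ≤ ((k + 1 + j : ℕ) : ℝ) := by exact_mod_cast hs2
          push_cast at this
          linarith
        have h7 := pow_le_pow_left₀ h5 h6 2
        linarith
      · rw [hx] at h3
        have : M.XU (k + 1) = 0 := by
          rw [hM, fam_XU]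
          push_cast
          ring
        rw [this]
        linarith
    · rw [hX, hY, hx', hx, hx3, e2]
      linarith

/-- A gun and a left target. -/
theorem visL {i j : ℕ} (hi : i < k) (hj : 1 ≤ j) (hjk : j ≤ k) :
    segment ℝ ((fam k t r hk ht hr).vv (2 * i + 2))
      ((fam k t r hk ht hr).vv (4 * k + 4 + t - (k + 1 - j))) ⊆ (fam k t r hk ht hr).P ↔
      j ≤ i + 1 := by
  set M := fam k t r hk ht hr with hM
  have hq : M.q = 2 * k + 2 := rfl
  have hm : M.m = 2 * k + t + 2 := rfl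
  rw [M.vv_lower (by omega), M.vv_upper (by omega)]
  have e1 : M.q + M.m - (4 * k + 4 + t - (k + 1 - j)) = k + 1 - j := by omega
  rw [e1]
  have hX : M.XU (k + 1 - j) = -(j : ℝ) := by
    rw [hM, fam_XU, Nat.cast_sub (by omega)]
    push_cast
    ring
  have hY : M.YU (k + 1 - j) = SS k - 1 - (j : ℝ) ^ 2 := by
    rw [hM, fam_YU hk ht hr (by omega) (by omega), Nat.cast_sub (by omega)]
    push_cast
    ring
  have hg : M.YL (2 * i + 1 + 1) = -1 := fam_YL_gun hk ht hr hi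
  have ha : M.YL (2 * i + 1) = 0 := fam_YL_odd hk ht hr (i := i)
  have hx : M.XL (2 * i + 1) = off k r (2 * i) := fam_XL hk ht hr (by omega)
  have hx' : M.XL (2 * i + 1 + 1) = off k r (2 * i + 1) := fam_XL hk ht hr (by omega)
  have hx0 := off_nonneg k r (2 * i)
  have hx0' := off_nonneg k r (2 * i + 1)
  have hx1 := off_le k r hr (2 * i) (by omega)
  have hx2 := off_le k r hr (2 * i + 1) (by omega)
  have hx3 : off k r (2 * i + 1) - off k r (2 * i) = ((i : ℝ) + 3 / 2) / SS k := by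
    rw [off_succ, w_even]
    ring
  have hS := SS_pos k
  have hk0 : (0 : ℝ) ≤ k := Nat.cast_nonneg k
  have hj0 : (1 : ℝ) ≤ j := by exact_mod_cast hj
  have hj1 : (j : ℝ) ≤ k := by exact_mod_cast hjk
  have hjj : (j : ℝ) ^ 2 ≤ (k : ℝ) ^ 2 := by
    apply pow_le_pow_left₀ (by linarith) hj1
  have hr0 : (0 : ℝ) ≤ i := Nat.cast_nonneg _
  have hr1 : (i : ℝ) + 1 ≤ k := by exact_mod_cast hi
  have hSk : ((k : ℝ) + 1 / 2) * (k : ℝ) ^ 2 ≤ SS k / 16 := by
    unfold SS
    nlinarith [mul_nonneg hk0 hk0, mul_nonneg (mul_nonneg hk0 hk0) hk0]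
  have hSk2 : 1 + (k : ℝ) ^ 2 ≤ SS k := by
    unfold SS
    nlinarith [mul_nonneg hk0 hk0, mul_nonneg (mul_nonneg hk0 hk0) hk0]
  have hb : ((i : ℝ) + 3 / 2) * (j : ℝ) ^ 2 ≤ SS k / 16 :=
    (mul_le_mul (by linarith) hjj (by positivity) (by positivity)).trans hSk
  have e2 : (SS k - 1 - (j : ℝ) ^ 2 + 1) * (((i : ℝ) + 3 / 2) / SS k) =
      (i : ℝ) + 3 / 2 - ((i : ℝ) + 3 / 2) * (j : ℝ) ^ 2 / SS k := by
    field_simp
    ring
  have hb' : ((i : ℝ) + 3 / 2) * (j : ℝ) ^ 2 / SS k ≤ 1 / 16 := by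
    rw [div_le_iff₀ hS]
    linarith
  have hb0 : 0 ≤ ((i : ℝ) + 3 / 2) * (j : ℝ) ^ 2 / SS k := by positivity
  have hfirst : M.XL 0 = -((k : ℝ) + 1) := fam_XL_zero hk ht hr
  constructor
  · intro h
    by_contra hcon
    have h1 : i + 2 ≤ j := by omega
    have h2 : (i : ℝ) + 2 ≤ j := by exact_mod_cast h1
    refine M.not_seeL (s := 2 * i + 1) (by omega) hg ha ?_ ?_ h
    · rw [hx, hX]
      linarith
    · rw [hX, hY, hx', hx, hx3, e2]
      linarith
  · intro h
    have h2 : (j : ℝ) ≤ i + 1 := by exact_mod_cast h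
    refine M.seeL (s := 2 * i + 1) (by omega) hg ha ?_ ?_ ?_ ?_ ?_
    · rw [hx', hX]
      linarith
    · rw [hfirst, hX]
      linarith
    · rw [hY]
      linarith
    · intro x h3 h4
      refine M.U_ge (i := k + 1 - j) (j := k + 2) (by omega) (by omega) ?_ h3 ?_
      · intro s hs1 hs2
        rw [hY]
        have := fam_YU hk ht hr (s := s) (by omega) (by omega)
        rw [← hM] at this
        rw [this]
        have h5 : -(j : ℝ) ≤ (s : ℝ) - 1 - k := by
          have : ((k + 1 - j : ℕ) : ℝ) ≤ s := by exact_mod_cast hs1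
          rw [Nat.cast_sub (by omega)] at this
          push_cast at this
          linarith
        have h6 : (s : ℝ) - 1 - k ≤ j := by
          have : (s : ℝ) ≤ ((k + 2 : ℕ) : ℝ) := by exact_mod_cast hs2
          push_cast at this
          linarith
        have h7 := sq_le_sq' h5 h6
        linarith
      · rw [hx'] at h4
        have : M.XU (k + 2) = 1 := by
          rw [hM, fam_XU]
          push_cast
          ring
        rw [this]
        linarith
    · rw [hX, hY, hx', hx, hx3, e2]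
      linarith

end

end Pool.Agent.T6.H89.Vis
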