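import Pool.Agent.T6.H89.Vis.Count

/-!
# The polygons of the family have no flat vertices
-/

set_option autoImplicit false

open Set Topology

namespace Pool.Agent.T6.H89.Vis

theorem det_of_collinear {p q r : ℝ × ℝ} (h : Collinear ℝ {p, q, r}) :
    (q.1 - p.1) * (r.2 - p.2) = (q.2 - p.2) * (r.1 - p.1) := by
  rw [collinear_iff_of_mem (p₀ := p) (by simp)] at h
  obtain ⟨v, hv⟩ := h
  obtain ⟨a, ha⟩ := hv q (by simp)
  obtain ⟨b, hb⟩ := hv r (by simp)
  rw [ha, hb]
  simp only [vadd_eq_add, Prod.fst_add, Prod.snd_add, Prod.smul_fst, Prod.smul_snd, smul_eq_mul]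
  ring

namespace Mono

variable (M : Mono)

theorem noFlat_of
    (h1 : ∀ s, s + 2 ≤ M.q → (M.XL (s + 1) - M.XL s) * (M.YL (s + 2) - M.YL s) ≠
      (M.YL (s + 1) - M.YL s) * (M.XL (s + 2) - M.XL s))
    (h2 : ∀ s, s + 2 ≤ M.m → (M.XU (s + 1) - M.XU s) * (M.YU (s + 2) - M.YU s) ≠
      (M.YU (s + 1) - M.YU s) * (M.XU (s + 2) - M.XU s))
    (h3 : M.YL (M.q - 1) = 0) (h4 : M.YL 1 = 0) :
    NoFlatVertex M.v := by
  have hq := M.hq
  have hm := M.hm
  intro i hcol
  have hi := i.2
  rcases Nat.lt_or_ge (i.1 + 1) (M.q + M.m) with h | h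
  · have hn : (next i).1 = i.1 + 1 := by rw [next_val, if_neg (by omega)]
    have e1 : M.v i = M.vv i.1 := rfl
    rw [M.v_next, M.v_next, hn, e1] at hcol
    have hd := det_of_collinear hcol
    rcases Nat.lt_or_ge M.q (i.1 + 2) with h5 | h5
    · rcases Nat.lt_or_ge i.1 M.q with h6 | h6
      · -- `i + 1 = q`
        have h7 : i.1 + 1 = M.q := by omega
        have h8 : i.1 = M.q - 1 := by omega
        rw [M.vv_lower h6.le, M.vv_lower h7.le, M.vv_upper (s := i.1 + 1 + 1) (by omega)] at hd
        simp only at hd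
        have hy0 : M.YL i.1 = 0 := by rw [h8, h3]
        have hy1 : M.YL (i.1 + 1) = 0 := by rw [h7, M.hYLe]
        have hy2 : 0 < M.YU (M.q + M.m - (i.1 + 1 + 1)) := M.hYU _ (by omega) (by omega)
        have hx := M.hXL i.1 h6
        rw [hy0, hy1] at hd
        have : 0 < (M.XL (i.1 + 1) - M.XL i.1) * (M.YU (M.q + M.m - (i.1 + 1 + 1)) - 0) :=
          mul_pos (by linarith) (by linarith)
        linarith
      · rw [M.vv_upper (by omega), M.vv_upper (by omega), M.vv_upper (by omega)] at hd
        simp only at hd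
        obtain ⟨s, hs⟩ : ∃ s, s + 2 = M.q + M.m - i.1 := ⟨M.q + M.m - i.1 - 2, by omega⟩
        have e2 : M.q + M.m - (i.1 + 1) = s + 1 := by omega
        have e3 : M.q + M.m - (i.1 + 1 + 1) = s := by omega
        rw [← hs, e2, e3] at hd
        apply h2 s (by omega)
        linarith
    · rw [M.vv_lower (by omega), M.vv_lower (by omega), M.vv_lower (by omega)] at hd
      exact h1 i.1 h5 hd
  · have h5 : i.1 + 1 = M.q + M.m := by omega
    have hn : (next i).1 = 0 := by rw [next_val, if_pos (by omega)]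
    have e1 : M.v i = M.vv i.1 := rfl
    rw [M.v_next, M.v_next, hn, e1, h5, M.vv_last, M.vv_upper (s := i.1) (by omega),
      M.vv_lower (s := 0) (by omega), M.vv_lower (s := 0 + 1) (by omega)] at hcol
    have hd := det_of_collinear hcol
    simp only at hd
    have e2 : M.q + M.m - i.1 = 1 := by omega
    rw [e2, M.hYL0, zero_add, h4] at hd
    have hy2 : 0 < M.YU 1 := M.hYU _ (by omega) (by omega)
    have hx := M.hXL 0 (by omega)
    simp only [zero_add] at hx
    have : 0 < (M.XL 1 - M.XL 0) * M.YU 1 := mul_pos (by linarith) hy2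
    linarith

end Mono

section

variable {k t : ℕ} {r : ℕ → ℕ} (hk : 1 ≤ k) (ht : t ≤ 3) (hr : ∀ i, r i ≤ k)

theorem fam_YL_last : (fam k t r hk ht hr).YL (2 * k + 2) = 0 := by
  change (if (2 * k + 2) % 2 = 0 ∧ 0 < 2 * k + 2 ∧ 2 * k + 2 < 2 * k + 2 then (-1 : ℝ) else 0) = _
  rw [if_neg (by omega)]

theorem fam_noFlat : NoFlatVertex (fam k t r hk ht hr).v := by
  set M := fam k t r hk ht hr with hM
  have hq : M.q = 2 * k + 2 := rfl
  have hm : M.m = 2 * k + t + 2 := rfl
  have hodd : ∀ i, M.YL (2 * i + 1) = 0 := fun i => fam_YL_odd hk ht hr (i := i)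
  have hgun : ∀ i, i < k → M.YL (2 * i + 2) = -1 := fun i hi => fam_YL_gun hk ht hr hi
  have hlast : M.YL (2 * k + 2) = 0 := fam_YL_last hk ht hr
  apply M.noFlat_of
  · intro s hs
    have hx1 := M.hXL s (by omega)
    have hx2 := M.hXL (s + 1) (by omega)
    rcases Nat.even_or_odd' s with ⟨c, hc | hc⟩
    · -- `s` even
      have y1 : M.YL (s + 1) = 0 := by rw [hc]; exact hodd c
      rw [y1]
      rcases Nat.eq_zero_or_pos c with h | h
      · have hs0 : s = 0 := by omega
        subst hs0
        have y2 : M.YL (0 + 2) = -1 := hgun 0 (by omega)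
        rw [y2, M.hYL0]
        intro h
        linarith
      · have y0 : M.YL s = -1 := by
          have := hgun (c - 1) (by omega)
          have e : 2 * (c - 1) + 2 = s := by omega
          rwa [e] at this
        rw [y0]
        rcases Nat.lt_or_ge c k with h' | h'
        · have y2 : M.YL (s + 2) = -1 := by
            rw [hc]
            exact hgun c h'
          rw [y2]
          intro h
          linarith
        · have y2 : M.YL (s + 2) = 0 := by
            have e : s + 2 = 2 * k + 2 := by omega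
            rw [e]
            exact hlast
          rw [y2]
          intro h
          linarith
    · have y0 : M.YL s = 0 := by rw [hc]; exact hodd c
      have y1 : M.YL (s + 1) = -1 := by
        have := hgun c (by omega)
        have e : 2 * c + 2 = s + 1 := by omega
        rwa [e] at this
      have y2 : M.YL (s + 2) = 0 := by
        have := hodd (c + 1)
        have e : 2 * (c + 1) + 1 = s + 2 := by omega
        rwa [e] at this
      rw [y0, y1, y2]
      intro h
      linarith
  · intro s hs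
    have hXU : ∀ s, M.XU s = (s : ℝ) - 1 - k := fun s => rfl
    have hYU : ∀ s, 0 < s → s < 2 * k + t + 2 → M.YU s = SS k - 1 - ((s : ℝ) - 1 - k) ^ 2 :=
      fun s h1 h2 => fam_YU hk ht hr h1 h2
    have hk0 : (0 : ℝ) ≤ k := Nat.cast_nonneg k
    have ht0 : (0 : ℝ) ≤ t := Nat.cast_nonneg t
    have ht3 : (t : ℝ) ≤ 3 := by exact_mod_cast ht
    have x1 : M.XU (s + 1) - M.XU s = 1 := by
      rw [hXU, hXU]
      push_cast
      ring
    have x2 : M.XU (s + 2) - M.XU s = 2 := by
      rw [hXU, hXU]
      push_cast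
      ring
    rw [x1, x2]
    intro h
    rcases Nat.eq_zero_or_pos s with h0 | h0
    · subst h0
      rw [M.hYU0, hYU (0 + 1) (by omega) (by omega), hYU (0 + 2) (by omega) (by omega)] at h
      push_cast at h
      unfold SS at h
      nlinarith [mul_nonneg hk0 hk0, mul_nonneg (mul_nonneg hk0 hk0) hk0]
    · rcases Nat.lt_or_ge (s + 2) (2 * k + t + 2) with h1 | h1
      · rw [hYU s (by omega) (by omega), hYU (s + 1) (by omega) (by omega),
          hYU (s + 2) (by omega) (by omega)] at h
        push_cast at h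
        nlinarith
      · have hs2 : s = 2 * k + t := by omega
        have e : s + 2 = M.m := by omega
        rw [e, M.hYUe, hYU s (by omega) (by omega), hYU (s + 1) (by omega) (by omega), hs2] at h
        push_cast at h
        unfold SS at h
        nlinarith [mul_nonneg hk0 hk0, mul_nonneg (mul_nonneg hk0 hk0) hk0, mul_nonneg ht0 hk0,
          mul_nonneg ht0 ht0]
  · have : M.q - 1 = 2 * k + 1 := by omega
    rw [this]
    exact hodd k
  · exact hodd 0

end

/-- The lower bound for the number of isomorphism classes. -/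
theorem lower_count {k t : ℕ} (hk : 1 ≤ k) (ht : t ≤ 3) :
    (k + 1) ^ k ≤ NStrict (2 * k + 2 + (2 * k + t + 2)) * 4 ^ (2 * k + 2 + (2 * k + t + 2)) := by
  apply card_le hk ht
  intro r
  exact ⟨(MM hk ht r).v, (MM hk ht r).P, (MM hk ht r).isPolygon, fam_noFlat hk ht (ext_le r), rfl⟩

theorem NStrict_le (n : ℕ) : NStrict n ≤ N n := by
  apply Set.ncard_le_ncard _ (Set.toFinite _)
  rintro C ⟨v, P, h1, -, h2⟩
  exact ⟨v, P, h1, h2⟩

end Pool.Agent.T6.H89.Vis
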