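import Pool.Agent.T6.H89.Vis.Region

/-!
# Monotone polygons
-/

set_option autoImplicit false

open Set Topology

namespace Pool.Agent.T6.H89.Vis

/-- A segment which is not vertical, as a graph. -/
theorem mem_seg_iff {x0 y0 x1 y1 : ℝ} (h : x0 < x1) (p : ℝ × ℝ) :
    p ∈ segment ℝ (x0, y0) (x1, y1) ↔
      (x0 ≤ p.1 ∧ p.1 ≤ x1) ∧ p.2 = y0 + (y1 - y0) / (x1 - x0) * (p.1 - x0) := by
  have hne : x1 - x0 ≠ 0 := by linarith
  rw [segment_eq_image]
  obtain ⟨x, y⟩ := p
  constructor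
  · rintro ⟨t, ⟨ht0, ht1⟩, h⟩
    simp only [Prod.smul_mk, smul_eq_mul, Prod.mk_add_mk, Prod.mk.injEq] at h
    obtain ⟨rfl, rfl⟩ := h
    refine ⟨⟨?_, ?_⟩, ?_⟩
    · simp only
      nlinarith
    · simp only
      nlinarith
    · simp only
      field_simp
      ring
  · rintro ⟨⟨h1, h2⟩, h3⟩
    simp only at h1 h2 h3
    refine ⟨(x - x0) / (x1 - x0), ⟨div_nonneg (by linarith) (by linarith), ?_⟩, ?_⟩
    · rw [div_le_one (by linarith)]
      linarith
    · simp only [Prod.smul_mk, smul_eq_mul, Prod.mk_add_mk, Prod.mk.injEq]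
      constructor
      · field_simp
        ring
      · rw [h3]
        field_simp
        ring

/-- Piecewise linear interpolation. -/
noncomputable def pl (X Y : ℕ → ℝ) (q : ℕ) (x : ℝ) : ℝ :=
  Y 0 + ∑ i ∈ Finset.range q,
    (Y (i + 1) - Y i) / (X (i + 1) - X i) * (max (X i) (min x (X (i + 1))) - X i)

theorem continuous_pl (X Y : ℕ → ℝ) (q : ℕ) : Continuous (pl X Y q) := by
  unfold pl
  fun_prop

theorem mono_le {X : ℕ → ℝ} {q : ℕ} (hX : ∀ i < q, X i < X (i + 1)) {i j : ℕ} (hij : i ≤ j)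
    (hj : j ≤ q) : X i ≤ X j := by
  induction j, hij using Nat.le_induction with
  | base => exact le_rfl
  | succ j hij ih => exact (ih (by omega)).trans (hX j (by omega)).le

theorem mono_lt {X : ℕ → ℝ} {q : ℕ} (hX : ∀ i < q, X i < X (i + 1)) {i j : ℕ} (hij : i < j)
    (hj : j ≤ q) : X i < X j :=
  (hX i (by omega)).trans_le (mono_le hX hij hj)

theorem pl_eq {X Y : ℕ → ℝ} {q : ℕ} (hX : ∀ i < q, X i < X (i + 1)) {j : ℕ} (hj : j < q) {x : ℝ}
    (h1 : X j ≤ x) (h2 : x ≤ X (j + 1)) :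
    pl X Y q x = Y j + (Y (j + 1) - Y j) / (X (j + 1) - X j) * (x - X j) := by
  unfold pl
  have h3 : Finset.range (j + 1) ⊆ Finset.range q := Finset.range_mono (by omega)
  rw [← Finset.sum_subset h3, Finset.sum_range_succ, min_eq_left h2, max_eq_right h1]
  · have h4 : ∑ i ∈ Finset.range j,
      (Y (i + 1) - Y i) / (X (i + 1) - X i) * (max (X i) (min x (X (i + 1))) - X i) =
        ∑ i ∈ Finset.range j, (Y (i + 1) - Y i) := by
      apply Finset.sum_congr rfl
      intro i hi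
      rw [Finset.mem_range] at hi
      have h5 : X (i + 1) ≤ X j := mono_le hX (by omega) (by omega)
      have h6 := hX i (by omega)
      have h7 : X (i + 1) - X i ≠ 0 := by linarith
      rw [min_eq_right (by linarith), max_eq_right (by linarith)]
      field_simp
    rw [h4, Finset.sum_range_sub]
    ring
  · intro i hi1 hi2
    rw [Finset.mem_range] at hi1 hi2
    have h5 : X (j + 1) ≤ X i := mono_le hX (by omega) (by omega)
    have h6 := hX i (by omega)
    rw [min_eq_left (by linarith), max_eq_left (by linarith)]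
    ring

theorem pl_vertex {X Y : ℕ → ℝ} {q : ℕ} (hX : ∀ i < q, X i < X (i + 1)) {j : ℕ} (hj : j ≤ q)
    (hq : 1 ≤ q) : pl X Y q (X j) = Y j := by
  rcases Nat.lt_or_ge j q with h | h
  · rw [pl_eq hX h le_rfl (hX j h).le]
    ring
  · obtain rfl : j = q := by omega
    obtain ⟨i, rfl⟩ : ∃ i, j = i + 1 := ⟨j - 1, by omega⟩
    rw [pl_eq hX (Nat.lt_succ_self i) (hX i (by omega)).le le_rfl]
    have := hX i (by omega)
    have h7 : X (i + 1) - X i ≠ 0 := by linarith
    field_simp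
    ring

/-- Every point of `[X 0, X q]` is in some interval `[X j, X (j+1)]`. -/
theorem exists_piece {X : ℕ → ℝ} {q : ℕ} (hq : 1 ≤ q) {x : ℝ} (h1 : X 0 ≤ x) (h2 : x ≤ X q) :
    ∃ j < q, X j ≤ x ∧ x ≤ X (j + 1) := by
  induction q with
  | zero => omega
  | succ q ih =>
    rcases Nat.eq_zero_or_pos q with h | h
    · subst h
      exact ⟨0, by omega, h1, h2⟩
    · rcases le_total x (X q) with h3 | h3
      · obtain ⟨j, hj, h4⟩ := ih h h3
        exact ⟨j, by omega, h4⟩
      · exact ⟨q, by omega, h3, h2⟩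

/-- Every point of `[X i, X j]` is in some piece between. -/
theorem exists_piece' {X : ℕ → ℝ} {i j : ℕ} (hij : i < j) {x : ℝ} (h1 : X i ≤ x) (h2 : x ≤ X j) :
    ∃ s, i ≤ s ∧ s < j ∧ X s ≤ x ∧ x ≤ X (s + 1) := by
  obtain ⟨d, rfl⟩ : ∃ d, j = i + d := ⟨j - i, by omega⟩
  obtain ⟨s, hs, h3, h4⟩ := exists_piece (X := fun s => X (i + s)) (q := d) (by omega)
    (x := x) (by simpa using h1) h2
  exact ⟨i + s, by omega, by omega, h3, h4⟩

/-- A lower bound for an affine interpolation. -/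
theorem interp_ge {x0 y0 x1 y1 c x : ℝ} (h : x0 < x1) (h0 : c ≤ y0) (h1 : c ≤ y1)
    (hx0 : x0 ≤ x) (hx1 : x ≤ x1) : c ≤ y0 + (y1 - y0) / (x1 - x0) * (x - x0) := by
  have h2 : 0 ≤ (x - x0) / (x1 - x0) := div_nonneg (by linarith) (by linarith)
  have h3 : (x - x0) / (x1 - x0) ≤ 1 := by
    rw [div_le_one (by linarith)]
    linarith
  have h4 : (y1 - y0) / (x1 - x0) * (x - x0) = (y1 - y0) * ((x - x0) / (x1 - x0)) := by ring
  rw [h4]
  nlinarith [mul_nonneg h2 (sub_nonneg.2 h1), mul_nonneg (sub_nonneg.2 h3) (sub_nonneg.2 h0)]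

theorem interp_le {x0 y0 x1 y1 c x : ℝ} (h : x0 < x1) (h0 : y0 ≤ c) (h1 : y1 ≤ c)
    (hx0 : x0 ≤ x) (hx1 : x ≤ x1) : y0 + (y1 - y0) / (x1 - x0) * (x - x0) ≤ c := by
  have := interp_ge (y0 := -y0) (y1 := -y1) (c := -c) h (by linarith) (by linarith) hx0 hx1
  have h4 : (-y1 - -y0) / (x1 - x0) * (x - x0) = - ((y1 - y0) / (x1 - x0) * (x - x0)) := by ring
  rw [h4] at this
  linarith

/-- Strict positivity of an affine interpolation. -/
theorem interp_pos {x0 y0 x1 y1 x : ℝ} (h : x0 < x1) (h0 : 0 ≤ y0) (h1 : 0 ≤ y1)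
    (hx0 : x0 ≤ x) (hx1 : x ≤ x1) (hp0 : 0 < y0 ∨ x0 < x) (hp1 : 0 < y1 ∨ x < x1)
    (hp : 0 < y0 ∨ 0 < y1) :
    0 < y0 + (y1 - y0) / (x1 - x0) * (x - x0) := by
  have h2 : 0 ≤ (x - x0) / (x1 - x0) := div_nonneg (by linarith) (by linarith)
  have h3 : (x - x0) / (x1 - x0) ≤ 1 := by
    rw [div_le_one (by linarith)]
    linarith
  have h4 : y0 + (y1 - y0) / (x1 - x0) * (x - x0) =
    y0 * (1 - (x - x0) / (x1 - x0)) + y1 * ((x - x0) / (x1 - x0)) := by ring
  rw [h4]
  rcases hp with hp | hp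
  · rcases hp1 with hp1 | hp1
    · rcases eq_or_lt_of_le h2 with h5 | h5
      · rw [← h5]
        simpa using hp
      · have := mul_pos hp1 h5
        have := mul_nonneg h0 (sub_nonneg.2 h3)
        linarith
    · have h5 : (x - x0) / (x1 - x0) < 1 := by
        rw [div_lt_one (by linarith)]
        linarith
      have := mul_pos hp (sub_pos.2 h5)
      have := mul_nonneg h1 h2
      linarith
  · rcases hp0 with hp0 | hp0
    · rcases eq_or_lt_of_le h3 with h5 | h5
      · rw [h5]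
        simpa using hp
      · have := mul_pos hp0 (sub_pos.2 h5)
        have := mul_nonneg h1 h2
        linarith
    · have h5 : 0 < (x - x0) / (x1 - x0) := div_pos (by linarith) (by linarith)
      have := mul_pos hp h5
      have := mul_nonneg h0 (sub_nonneg.2 h3)
      linarith

/-- The data of a monotone polygon: a lower chain with `q` edges and an upper chain with `m`
edges. -/
structure Mono where
  q : ℕ
  m : ℕ
  XL : ℕ → ℝ
  YL : ℕ → ℝ
  XU : ℕ → ℝ
  YU : ℕ → ℝ
  hq : 1 ≤ q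
  hm : 2 ≤ m
  hXL : ∀ i < q, XL i < XL (i + 1)
  hXU : ∀ i < m, XU i < XU (i + 1)
  hX0 : XL 0 = XU 0
  hXe : XL q = XU m
  hYL : ∀ i ≤ q, YL i ≤ 0
  hYL0 : YL 0 = 0
  hYLe : YL q = 0
  hYU0 : YU 0 = 0
  hYUe : YU m = 0
  hYU : ∀ i, 0 < i → i < m → 0 < YU i

namespace Mono

variable (M : Mono)

/-- The vertices, counterclockwise. -/
noncomputable def vv (s : ℕ) : ℝ × ℝ :=
  if s ≤ M.q then (M.XL s, M.YL s) else (M.XU (M.q + M.m - s), M.YU (M.q + M.m - s))

noncomputable def v (i : Fin (M.q + M.m)) : ℝ × ℝ := M.vv i.1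

noncomputable def L : ℝ → ℝ := pl M.XL M.YL M.q

noncomputable def U : ℝ → ℝ := pl M.XU M.YU M.m

/-- The region. -/
noncomputable def P : Set (ℝ × ℝ) := reg (M.XL 0) (M.XL M.q) M.L M.U

theorem vv_lower {s : ℕ} (h : s ≤ M.q) : M.vv s = (M.XL s, M.YL s) := if_pos h

theorem vv_upper {s : ℕ} (h : M.q ≤ s) :
    M.vv s = (M.XU (M.q + M.m - s), M.YU (M.q + M.m - s)) := by
  rcases Nat.lt_or_ge M.q s with h1 | h1
  · exact if_neg (by omega)
  · obtain rfl : s = M.q := by omega
    rw [M.vv_lower le_rfl]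
    have : M.q + M.m - M.q = M.m := by omega
    rw [this, M.hXe, M.hYLe, M.hYUe]

theorem vv_last : M.vv (M.q + M.m) = M.vv 0 := by
  rw [M.vv_upper (by omega), M.vv_lower (by omega), Nat.sub_self, M.hX0, M.hYU0, M.hYL0]

theorem v_next (i : Fin (M.q + M.m)) : M.v (next i) = M.vv (i.1 + 1) := by
  unfold v next
  rcases Nat.lt_or_ge (i.1 + 1) (M.q + M.m) with h | h
  · simp only [Nat.mod_eq_of_lt h]
  · have : i.1 + 1 = M.q + M.m := by have := i.2; omega
    simp only [this, Nat.mod_self, M.vv_last]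

theorem edge_lower {i : Fin (M.q + M.m)} (h : i.1 < M.q) :
    edge M.v i = {p | (M.XL i.1 ≤ p.1 ∧ p.1 ≤ M.XL (i.1 + 1)) ∧ p.2 = M.L p.1} := by
  unfold edge
  rw [M.v_next, v, M.vv_lower h.le, M.vv_lower h]
  ext p
  rw [mem_seg_iff (M.hXL _ h)]
  constructor
  · rintro ⟨h1, h2⟩
    refine ⟨h1, ?_⟩
    rw [h2, L, pl_eq M.hXL h h1.1 h1.2]
  · rintro ⟨h1, h2⟩
    refine ⟨h1, ?_⟩
    rw [h2, L, pl_eq M.hXL h h1.1 h1.2]

theorem edge_upper {i : Fin (M.q + M.m)} (h : M.q ≤ i.1) :
    edge M.v i = {p | (M.XU (M.q + M.m - (i.1 + 1)) ≤ p.1 ∧ p.1 ≤ M.XU (M.q + M.m - i.1)) ∧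
      p.2 = M.U p.1} := by
  unfold edge
  have hi := i.2
  rw [M.v_next, v, M.vv_upper h, M.vv_upper (by omega : M.q ≤ i.1 + 1), segment_symm]
  set s := M.q + M.m - (i.1 + 1) with hs
  have h3 : M.q + M.m - i.1 = s + 1 := by omega
  have h4 : s < M.m := by omega
  rw [h3]
  ext p
  rw [mem_seg_iff (M.hXU _ h4)]
  constructor
  · rintro ⟨h1, h2⟩
    refine ⟨h1, ?_⟩
    rw [h2, U, pl_eq M.hXU h4 h1.1 h1.2]
  · rintro ⟨h1, h2⟩
    refine ⟨h1, ?_⟩
    rw [h2, U, pl_eq M.hXU h4 h1.1 h1.2]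

theorem L_nonpos {x : ℝ} (h1 : M.XL 0 ≤ x) (h2 : x ≤ M.XL M.q) : M.L x ≤ 0 := by
  obtain ⟨j, hj, h3, h4⟩ := exists_piece M.hq h1 h2
  rw [L, pl_eq M.hXL hj h3 h4]
  exact interp_le (M.hXL _ hj) (M.hYL _ hj.le) (M.hYL _ hj) h3 h4

theorem U_pos {x : ℝ} (h1 : M.XL 0 < x) (h2 : x < M.XL M.q) : 0 < M.U x := by
  have hm := M.hm
  rw [M.hX0] at h1
  rw [M.hXe] at h2
  obtain ⟨j, hj, h3, h4⟩ := exists_piece (X := M.XU) (q := M.m) (by omega) h1.le h2.le
  rw [U, pl_eq M.hXU hj h3 h4]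
  have hn : ∀ i ≤ M.m, 0 ≤ M.YU i := by
    intro i hi
    rcases Nat.eq_zero_or_pos i with h | h
    · rw [h, M.hYU0]
    · rcases Nat.lt_or_ge i M.m with h' | h'
      · exact (M.hYU i h h').le
      · obtain rfl : i = M.m := by omega
        rw [M.hYUe]
  apply interp_pos (M.hXU _ hj) (hn _ hj.le) (hn _ hj) h3 h4
  · rcases Nat.eq_zero_or_pos j with h | h
    · right
      rw [h]
      exact h1
    · exact Or.inl (M.hYU j h hj)
  · rcases Nat.lt_or_ge (j + 1) M.m with h | h
    · exact Or.inl (M.hYU _ (by omega) h)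
    · right
      have : j + 1 = M.m := by omega
      rw [this]
      exact h2
  · rcases Nat.eq_zero_or_pos j with h | h
    · right
      exact M.hYU _ (by omega) (by omega)
    · exact Or.inl (M.hYU j h hj)

theorem U_left : M.U (M.XL 0) = 0 := by
  have := M.hm
  rw [M.hX0, U, pl_vertex M.hXU (by omega) (by omega), M.hYU0]

theorem U_right : M.U (M.XL M.q) = 0 := by
  have := M.hm
  rw [M.hXe, U, pl_vertex M.hXU (by omega) (by omega), M.hYUe]

theorem L_left : M.L (M.XL 0) = 0 := by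
  rw [L, pl_vertex M.hXL (by omega) M.hq, M.hYL0]

theorem L_right : M.L (M.XL M.q) = 0 := by
  rw [L, pl_vertex M.hXL (by omega) M.hq, M.hYLe]

theorem curve_eq : curve M.v =
    {p | p.1 ∈ Icc (M.XL 0) (M.XL M.q) ∧ (p.2 = M.L p.1 ∨ p.2 = M.U p.1)} := by
  have hq := M.hq
  have hm := M.hm
  ext p
  simp only [curve, mem_iUnion]
  constructor
  · rintro ⟨i, hi⟩
    have hi2 := i.2
    rcases Nat.lt_or_ge i.1 M.q with h | h
    · rw [M.edge_lower h] at hi
      obtain ⟨⟨h1, h2⟩, h3⟩ := hi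
      exact ⟨⟨(mono_le M.hXL (by omega) h.le).trans h1,
        h2.trans (mono_le M.hXL (by omega) le_rfl)⟩, Or.inl h3⟩
    · rw [M.edge_upper h] at hi
      obtain ⟨⟨h1, h2⟩, h3⟩ := hi
      refine ⟨⟨?_, ?_⟩, Or.inr h3⟩
      · rw [M.hX0]
        exact (mono_le M.hXU (by omega) (by omega)).trans h1
      · rw [M.hXe]
        exact h2.trans (mono_le M.hXU (by omega) le_rfl)
  · rintro ⟨⟨h1, h2⟩, h3 | h3⟩
    · obtain ⟨j, hj, h4, h5⟩ := exists_piece M.hq h1 h2
      refine ⟨⟨j, by omega⟩, ?_⟩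
      rw [M.edge_lower (by exact hj)]
      exact ⟨⟨h4, h5⟩, h3⟩
    · rw [M.hX0] at h1
      rw [M.hXe] at h2
      obtain ⟨j, hj, h4, h5⟩ := exists_piece (X := M.XU) (q := M.m) (by omega) h1 h2
      refine ⟨⟨M.q + M.m - 1 - j, by omega⟩, ?_⟩
      rw [M.edge_upper (by simp only; omega)]
      have e1 : M.q + M.m - (M.q + M.m - 1 - j + 1) = j := by omega
      have e2 : M.q + M.m - (M.q + M.m - 1 - j) = j + 1 := by omega
      refine ⟨⟨?_, ?_⟩, h3⟩
      · simp only [e1]
        exact h4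
      · simp only [e2]
        exact h5

theorem lt_LU {x : ℝ} (hx : x ∈ Ioo (M.XL 0) (M.XL M.q)) : M.L x < M.U x :=
  (M.L_nonpos hx.1.le hx.2.le).trans_lt (M.U_pos hx.1 hx.2)

/-- Points common to both chains. -/
theorem common {p : ℝ × ℝ} (h1 : M.XL 0 ≤ p.1) (h2 : p.1 ≤ M.XL M.q) (h3 : p.2 = M.L p.1)
    (h4 : p.2 = M.U p.1) : p.1 = M.XL 0 ∨ p.1 = M.XL M.q := by
  by_contra h
  push Not at h
  have := M.lt_LU ⟨lt_of_le_of_ne h1 h.1.symm, lt_of_le_of_ne h2 h.2⟩
  linarith

theorem vv_mem_range {s : ℕ} (hs : s ≤ M.q + M.m) :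
    M.XL 0 ≤ (M.vv s).1 ∧ (M.vv s).1 ≤ M.XL M.q := by
  rcases Nat.lt_or_ge s M.q with h | h
  · rw [M.vv_lower h.le]
    exact ⟨mono_le M.hXL (by omega) h.le, mono_le M.hXL h.le le_rfl⟩
  · rw [M.vv_upper h, M.hX0, M.hXe]
    exact ⟨mono_le M.hXU (by omega) (by omega), mono_le M.hXU (by omega) le_rfl⟩

theorem injective : Function.Injective M.v := by
  have hq := M.hq
  have hm := M.hm
  have key : ∀ i j : ℕ, i < j → j < M.q + M.m → M.vv i ≠ M.vv j := by
    intro i j hij hj h
    rcases Nat.lt_or_ge M.q j with h1 | h1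
    · rcases Nat.lt_or_ge i M.q with h2 | h2
      · rw [M.vv_lower h2.le, M.vv_upper h1.le, Prod.mk.injEq] at h
        have h3 := M.hYU (M.q + M.m - j) (by omega) (by omega)
        have h4 := M.hYL i h2.le
        linarith [h.2]
      · rw [M.vv_upper h2, M.vv_upper h1.le, Prod.mk.injEq] at h
        have := mono_lt M.hXU (i := M.q + M.m - j) (j := M.q + M.m - i) (by omega) (by omega)
        linarith [h.1]
    · rw [M.vv_lower (by omega), M.vv_lower h1, Prod.mk.injEq] at h
      have := mono_lt M.hXL hij h1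
      linarith [h.1]
  intro i j h
  by_contra hne
  have hne' : i.1 ≠ j.1 := fun h => hne (Fin.ext h)
  rcases Nat.lt_or_gt_of_ne hne' with h1 | h1
  · exact key _ _ h1 j.2 h
  · exact key _ _ h1 i.2 h.symm

theorem next_val {n : ℕ} (i : Fin n) : (next i).1 = if i.1 + 1 = n then 0 else i.1 + 1 := by
  unfold next
  split_ifs with h
  · simp [h]
  · exact Nat.mod_eq_of_lt (by have := i.2; omega)

/-- The intersection of the edges number `i` and `j` with `i < j`. -/
theorem edge_inter {i j : Fin (M.q + M.m)} (hij : i.1 < j.1) {p : ℝ × ℝ} (hi : p ∈ edge M.v i)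
    (hj : p ∈ edge M.v j) : (j.1 = i.1 + 1 ∧ p = M.vv (i.1 + 1)) ∨
      (i.1 = 0 ∧ j.1 + 1 = M.q + M.m ∧ p = M.vv 0) := by
  have hq := M.hq
  have hm := M.hm
  have hj2 := j.2
  rcases Nat.lt_or_ge i.1 M.q with h | h
  · rcases Nat.lt_or_ge j.1 M.q with h' | h'
    · rw [M.edge_lower h] at hi
      rw [M.edge_lower h'] at hj
      have h1 := hi.1.2
      have h2 := hj.1.1
      left
      rcases Nat.lt_or_ge (i.1 + 1) j.1 with h3 | h3
      · have := mono_lt M.hXL h3 h'.le
        linarith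
      · have h4 : j.1 = i.1 + 1 := by omega
        refine ⟨h4, ?_⟩
        rw [h4] at h2
        have h5 : p.1 = M.XL (i.1 + 1) := le_antisymm h1 h2
        rw [M.vv_lower (by omega)]
        refine Prod.ext h5 ?_
        simp only
        rw [hi.2, h5, L, pl_vertex M.hXL (by omega) hq]
    · rw [M.edge_lower h] at hi
      rw [M.edge_upper h'] at hj
      have h1 : M.XL 0 ≤ p.1 := (mono_le M.hXL (by omega) h.le).trans hi.1.1
      have h2 : p.1 ≤ M.XL M.q := hi.1.2.trans (mono_le M.hXL (by omega) le_rfl)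
      rcases M.common h1 h2 hi.2 hj.2 with h3 | h3
      · right
        have h4 : i.1 = 0 := by
          by_contra h5
          have := mono_lt M.hXL (i := 0) (j := i.1) (by omega) h.le
          linarith [hi.1.1]
        have h5 : j.1 + 1 = M.q + M.m := by
          by_contra h6
          have h7 := mono_lt M.hXU (i := 0) (j := M.q + M.m - (j.1 + 1)) (by omega) (by omega)
          rw [← M.hX0] at h7
          linarith [hj.1.1]
        refine ⟨h4, h5, ?_⟩
        rw [M.vv_lower (by omega)]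
        refine Prod.ext h3 ?_
        simp only
        rw [hi.2, h3, M.L_left, M.hYL0]
      · left
        have h4 : i.1 + 1 = M.q := by
          by_contra h5
          have := mono_lt M.hXL (i := i.1 + 1) (j := M.q) (by omega) le_rfl
          linarith [hi.1.2]
        have h5 : j.1 = M.q := by
          by_contra h6
          have h7 := mono_lt M.hXU (i := M.q + M.m - j.1) (j := M.m) (by omega) le_rfl
          rw [← M.hXe] at h7
          linarith [hj.1.2]
        refine ⟨by omega, ?_⟩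
        rw [h4, M.vv_lower le_rfl]
        refine Prod.ext h3 ?_
        simp only
        rw [hi.2, h3, M.L_right, M.hYLe]
  · left
    rw [M.edge_upper h] at hi
    rw [M.edge_upper (by omega)] at hj
    have h1 := hi.1.1
    have h2 := hj.1.2
    rcases Nat.lt_or_ge (i.1 + 1) j.1 with h3 | h3
    · have := mono_lt M.hXU (i := M.q + M.m - j.1) (j := M.q + M.m - (i.1 + 1)) (by omega)
        (by omega)
      linarith
    · have h4 : j.1 = i.1 + 1 := by omega
      refine ⟨h4, ?_⟩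
      rw [h4] at h2
      have h5 : p.1 = M.XU (M.q + M.m - (i.1 + 1)) := le_antisymm h2 h1
      rw [M.vv_upper (by omega)]
      refine Prod.ext h5 ?_
      simp only
      rw [hi.2, h5, U, pl_vertex M.hXU (by omega) (by omega)]

theorem simple : IsSimpleClosed M.v := by
  have hq := M.hq
  have hm := M.hm
  refine ⟨by omega, M.injective, ?_, ?_⟩
  · intro i
    apply subset_antisymm
    · rintro p ⟨h1, h2⟩
      rw [mem_singleton_iff, M.v_next]
      have hi := i.2
      rcases Nat.lt_or_ge (i.1 + 1) (M.q + M.m) with h | h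
      · have h3 : (next i).1 = i.1 + 1 := by rw [next_val, if_neg (by omega)]
        rcases M.edge_inter (by omega) h1 h2 with h4 | h4
        · exact h4.2
        · exfalso
          omega
      · have h3 : (next i).1 = 0 := by rw [next_val, if_pos (by omega)]
        rcases M.edge_inter (by omega) h2 h1 with h4 | h4
        · exfalso
          omega
        · rw [h4.2.1, M.vv_last]
          exact h4.2.2
    · rintro p hp
      rw [mem_singleton_iff] at hp
      rw [hp]
      exact ⟨right_mem_segment _ _ _, left_mem_segment _ _ _⟩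
  · intro i j h1 h2 h3
    rw [Set.disjoint_left]
    intro p hi hj
    have hne : i.1 ≠ j.1 := fun h => h1 (Fin.ext h)
    have e1 := next_val i
    have e2 := next_val j
    have n1 : (next i).1 ≠ j.1 := fun h => h2 (Fin.ext h)
    have n2 : (next j).1 ≠ i.1 := fun h => h3 (Fin.ext h)
    have l1 := i.2
    have l2 := j.2
    rcases Nat.lt_or_gt_of_ne hne with h | h
    · rcases M.edge_inter h hi hj with h4 | h4
      · rw [if_neg (by omega)] at e1
        omega
      · rw [if_pos (by omega)] at e2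
        omega
    · rcases M.edge_inter h hj hi with h4 | h4
      · rw [if_neg (by omega)] at e2
        omega
      · rw [if_pos (by omega)] at e1
        omega

theorem X_lt : M.XL 0 < M.XL M.q := mono_lt M.hXL M.hq le_rfl

theorem isPolygon : IsPolygon M.v M.P := by
  have hL : Continuous M.L := continuous_pl _ _ _
  have hU : Continuous M.U := continuous_pl _ _ _
  have hlt : ∀ x ∈ Ioo (M.XL 0) (M.XL M.q), M.L x < M.U x := fun x hx => M.lt_LU hx
  have ha : M.L (M.XL 0) = M.U (M.XL 0) := by rw [M.L_left, M.U_left]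
  have hb : M.L (M.XL M.q) = M.U (M.XL M.q) := by rw [M.L_right, M.U_right]
  exact
    { simple := M.simple
      compact := isCompact_reg hL hU hlt ha hb
      closure_interior := closure_interior_reg M.X_lt hL hU hlt ha hb
      connected := isConnected_interior_reg M.X_lt hL hU hlt
      boundary := by
        rw [P, frontier_reg hL hU hlt ha hb, M.curve_eq] }

end Mono

end Pool.Agent.T6.H89.Vis
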