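import Pool.Agent.T6.H89.Vis.Basic

/-!
# The parity criterion for points of a simple polygon
-/

set_option autoImplicit false

open Set Topology Filter

namespace Pool.Agent.T6.H89.Vis

/-- The cross product in the plane. -/
def cr (p q : ℝ × ℝ) : ℝ := p.1 * q.2 - p.2 * q.1

section

variable {n : ℕ} {v : Fin n → ℝ × ℝ} {P : Set (ℝ × ℝ)}

theorem isClosed_edge (v : Fin n → ℝ × ℝ) (c : Fin n) : IsClosed (edge v c) := by
  unfold edge
  rw [segment_eq_image]
  exact (isCompact_Icc.image (by fun_prop)).isClosed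

theorem isClosed_curve (v : Fin n → ℝ × ℝ) : IsClosed (curve v) :=
  isClosed_iUnion_of_finite fun c => isClosed_edge v c

theorem curve_subset (h : IsPolygon v P) : curve v ⊆ P := by
  rw [← h.boundary]
  exact h.compact.isClosed.frontier_subset

/-- A connected set missing the curve is inside or outside. -/
theorem dichotomy (h : IsPolygon v P) {H : Set (ℝ × ℝ)} (hH : IsPreconnected H)
    (hd : Disjoint H (curve v)) : H ⊆ interior P ∨ H ⊆ Pᶜ := by
  apply IsPreconnected.subset_or_subset isOpen_interior h.compact.isClosed.isOpen_compl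
  · rw [Set.disjoint_compl_right_iff_subset]
    exact interior_subset
  · intro p hp
    by_cases hpP : p ∈ P
    · left
      by_contra h1
      have : p ∈ frontier P := by
        rw [h.compact.isClosed.frontier_eq]
        exact ⟨hpP, h1⟩
      rw [h.boundary] at this
      exact Set.disjoint_left.1 hd hp this
    · exact Or.inr hpP
  · exact hH

theorem cr_edge {c : Fin n} {p : ℝ × ℝ} (hp : p ∈ edge v c) :
    cr (v (next c) - v c) (p - v c) = 0 := by
  unfold edge at hp
  rw [segment_eq_image] at hp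
  obtain ⟨t, -, rfl⟩ := hp
  simp only [cr, Prod.fst_sub, Prod.snd_sub, Prod.fst_add, Prod.snd_add, Prod.smul_fst,
    Prod.smul_snd, smul_eq_mul]
  ring

theorem convex_half (u a : ℝ × ℝ) (e : ℝ) : Convex ℝ {p : ℝ × ℝ | 0 < e * cr u (p - a)} := by
  intro x hx y hy s t hs ht hst
  simp only [mem_ofPred_eq] at hx hy ⊢
  have : e * cr u (s • x + t • y - a) = s * (e * cr u (x - a)) + t * (e * cr u (y - a)) := by
    have ht' : t = 1 - s := by linarith
    subst ht'
    simp only [cr, Prod.fst_sub, Prod.snd_sub, Prod.fst_add, Prod.snd_add, Prod.smul_fst,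
      Prod.smul_snd, smul_eq_mul]
    ring
  rw [this]
  rcases eq_or_lt_of_le hs with h | h
  · rw [← h] at hst ⊢
    have : t = 1 := by linarith
    rw [this]
    linarith
  · have := mul_pos h hx
    have := mul_nonneg ht hy.le
    linarith

/-- Near a relative interior point of an edge, the polygon is on exactly one side. -/
theorem flip (h : IsPolygon v P) {c : Fin n} {z : ℝ × ℝ} (hz : z ∈ edge v c)
    (hz' : ∀ c', c' ≠ c → z ∉ edge v c') {d : ℝ × ℝ} (hd : cr (v (next c) - v c) d ≠ 0) :
    (∀ᶠ s in 𝓝[>] (0 : ℝ), z + s • d ∈ P ∧ z - s • d ∉ P) ∨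
      (∀ᶠ s in 𝓝[>] (0 : ℝ), z + s • d ∉ P ∧ z - s • d ∈ P) := by
  set u := v (next c) - v c with hu
  set a := v c with ha
  have hPc := h.compact.isClosed
  have hzP : z ∈ frontier P := by
    rw [h.boundary]
    exact mem_iUnion.2 ⟨c, hz⟩
  -- a ball meeting only the edge `c`
  obtain ⟨ρ, hρ, hball⟩ : ∃ ρ > 0, ∀ p ∈ Metric.ball z ρ, p ∈ curve v → p ∈ edge v c := by
    have h1 : IsClosed (⋃ c' : {c' : Fin n // c' ≠ c}, edge v c'.1) :=
      isClosed_iUnion_of_finite fun c' => isClosed_edge v c'.1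
    have h2 : z ∈ (⋃ c' : {c' : Fin n // c' ≠ c}, edge v c'.1)ᶜ := by
      simp only [mem_compl_iff, mem_iUnion, not_exists]
      exact fun c' => hz' c'.1 c'.2
    obtain ⟨ρ, hρ, h3⟩ := Metric.isOpen_iff.1 h1.isOpen_compl z h2
    refine ⟨ρ, hρ, fun p hp hpc => ?_⟩
    obtain ⟨c', hc'⟩ := mem_iUnion.1 hpc
    by_cases h4 : c' = c
    · rwa [h4] at hc'
    · exact absurd (mem_iUnion.2 ⟨⟨c', h4⟩, hc'⟩) (h3 hp)
  have hlz : cr u (z - a) = 0 := cr_edge hz
  have hside : ∀ e : ℝ, (Metric.ball z ρ ∩ {p | 0 < e * cr u (p - a)} ⊆ interior P) ∨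
      (Metric.ball z ρ ∩ {p | 0 < e * cr u (p - a)} ⊆ Pᶜ) := by
    intro e
    apply dichotomy h
    · exact ((convex_ball z ρ).inter (convex_half u a e)).isPreconnected
    · rw [Set.disjoint_left]
      rintro p ⟨hp1, hp2⟩ hp3
      have := cr_edge (hball p hp1 hp3)
      simp only [mem_ofPred_eq] at hp2
      rw [← hu, ← ha] at this
      rw [this] at hp2
      simp at hp2
  have hlin : ∀ (p : ℝ × ℝ) (s : ℝ), cr u (p + s • d - a) = cr u (p - a) + s * cr u d := by
    intro p s
    simp only [cr, Prod.fst_sub, Prod.snd_sub, Prod.fst_add, Prod.snd_add, Prod.smul_fst,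
      Prod.smul_snd, smul_eq_mul]
    ring
  -- `e = cr u d` and `e = - cr u d`
  set e := cr u d with he
  have htend : ∀ p : ℝ × ℝ, Tendsto (fun s : ℝ => p + s • d) (𝓝[>] 0) (𝓝 p) := by
    intro p
    have hc : Continuous fun s : ℝ => p + s • d := by fun_prop
    have := hc.tendsto 0
    simp only [zero_smul, add_zero] at this
    exact this.mono_left nhdsWithin_le_nhds
  have htend' : ∀ p : ℝ × ℝ, Tendsto (fun s : ℝ => p - s • d) (𝓝[>] 0) (𝓝 p) := by
    intro p
    have hc : Continuous fun s : ℝ => p - s • d := by fun_prop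
    have := hc.tendsto 0
    simp only [zero_smul, sub_zero] at this
    exact this.mono_left nhdsWithin_le_nhds
  have hpos : ∀ᶠ s in 𝓝[>] (0 : ℝ), 0 < s := self_mem_nhdsWithin
  have hball1 : ∀ᶠ s in 𝓝[>] (0 : ℝ), z + s • d ∈ Metric.ball z ρ :=
    (htend z).eventually (Metric.ball_mem_nhds z hρ)
  have hball2 : ∀ᶠ s in 𝓝[>] (0 : ℝ), z - s • d ∈ Metric.ball z ρ :=
    (htend' z).eventually (Metric.ball_mem_nhds z hρ)
  have hee : 0 < e * e := mul_self_pos.2 hd
  have hin1 : ∀ᶠ s in 𝓝[>] (0 : ℝ), z + s • d ∈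
      Metric.ball z ρ ∩ {p | 0 < e * cr u (p - a)} := by
    filter_upwards [hpos, hball1] with s hs1 hs2
    refine ⟨hs2, ?_⟩
    simp only [mem_ofPred_eq]
    rw [hlin, hlz]
    nlinarith
  have hin2 : ∀ᶠ s in 𝓝[>] (0 : ℝ), z - s • d ∈
      Metric.ball z ρ ∩ {p | 0 < (-e) * cr u (p - a)} := by
    filter_upwards [hpos, hball2] with s hs1 hs2
    refine ⟨hs2, ?_⟩
    simp only [mem_ofPred_eq]
    have : z - s • d = z + (-s) • d := by
      rw [neg_smul, sub_eq_add_neg]
    rw [this, hlin, hlz]
    nlinarith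
  rcases hside e with h1 | h1
  · rcases hside (-e) with h2 | h2
    · -- both sides inside: contradiction
      exfalso
      have hsub : Metric.ball z ρ ⊆ P := by
        intro p hp
        have hpb : ∀ᶠ s in 𝓝[>] (0 : ℝ), p + s • d ∈ Metric.ball z ρ :=
          (htend p).eventually (Metric.isOpen_ball.mem_nhds hp)
        rcases lt_trichotomy (e * cr u (p - a)) 0 with h3 | h3 | h3
        · exact interior_subset (h2 ⟨hp, by simp only [mem_ofPred_eq]; linarith⟩)
        · refine hPc.mem_of_tendsto (htend p) ?_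
          filter_upwards [hpos, hpb] with s hs1 hs2
          refine interior_subset (h1 ⟨hs2, ?_⟩)
          simp only [mem_ofPred_eq]
          rw [hlin]
          nlinarith
        · exact interior_subset (h1 ⟨hp, h3⟩)
      have h4 : z ∈ interior P :=
        interior_maximal hsub Metric.isOpen_ball (Metric.mem_ball_self hρ)
      rw [hPc.frontier_eq] at hzP
      exact hzP.2 h4
    · left
      filter_upwards [hin1, hin2] with s hs1 hs2
      exact ⟨interior_subset (h1 hs1), h2 hs2⟩
  · rcases hside (-e) with h2 | h2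
    · right
      filter_upwards [hin1, hin2] with s hs1 hs2
      exact ⟨h1 hs1, interior_subset (h2 hs2)⟩
    · exfalso
      have hzc : z ∈ closure (interior P) := by
        rw [h.closure_interior]
        exact hPc.frontier_subset hzP
      obtain ⟨p, hp1, hp2⟩ := mem_closure_iff.1 hzc (Metric.ball z ρ) Metric.isOpen_ball
        (Metric.mem_ball_self hρ)
      rcases lt_trichotomy (e * cr u (p - a)) 0 with h3 | h3 | h3
      · exact h2 ⟨hp1, by simp only [mem_ofPred_eq]; linarith⟩ (interior_subset hp2)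
      · have hpb : ∀ᶠ s in 𝓝[>] (0 : ℝ), p + s • d ∈ Metric.ball z ρ :=
          (htend p).eventually (Metric.isOpen_ball.mem_nhds hp1)
        have hpi : ∀ᶠ s in 𝓝[>] (0 : ℝ), p + s • d ∈ interior P :=
          (htend p).eventually (isOpen_interior.mem_nhds hp2)
        obtain ⟨s, hs1, hs2, hs3⟩ := (hpos.and (hpb.and hpi)).exists
        refine h1 ⟨hs2, ?_⟩ (interior_subset hs3)
        simp only [mem_ofPred_eq]
        rw [hlin]
        nlinarith
      · exact h1 ⟨hp1, h3⟩ (interior_subset hp2)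

end

end Pool.Agent.T6.H89.Vis
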