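import Pool.Agent.T6.H89.Vis.Parity

/-!
# The parity criterion for points of a simple polygon, second part
-/

set_option autoImplicit false

open Set Topology Filter

namespace Pool.Agent.T6.H89.Vis

section

variable {n : ℕ} {v : Fin n → ℝ × ℝ} {P : Set (ℝ × ℝ)}

/-- Two distinct edges only meet in vertices. -/
theorem meet_vertex (h : IsSimpleClosed v) {c c' : Fin n} (hne : c ≠ c') {p : ℝ × ℝ}
    (h1 : p ∈ edge v c) (h2 : p ∈ edge v c') : ∃ i, p = v i := by
  by_cases h3 : next c = c'
  · have : p ∈ edge v c ∩ edge v (next c) := ⟨h1, h3 ▸ h2⟩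
    rw [h.consecutive] at this
    exact ⟨_, this⟩
  · by_cases h4 : next c' = c
    · have : p ∈ edge v c' ∩ edge v (next c') := ⟨h2, h4 ▸ h1⟩
      rw [h.consecutive] at this
      exact ⟨_, this⟩
    · exact absurd h2 (Set.disjoint_left.1 (h.disjoint c c' hne h3 h4) h1)

/-- The edge `c` crosses the line through `z` with direction `d`. -/
def Opp (v : Fin n → ℝ × ℝ) (z d : ℝ × ℝ) (c : Fin n) : Prop :=
  cr d (v c - z) * cr d (v (next c) - z) < 0

/-- The parameter of the crossing. -/
noncomputable def par (v : Fin n → ℝ × ℝ) (z d : ℝ × ℝ) (c : Fin n) : ℝ :=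
  cr (v (next c) - v c) (z - v c) / cr d (v (next c) - v c)

theorem opp_ne {z d : ℝ × ℝ} {c : Fin n} (h : Opp v z d c) : cr d (v (next c) - v c) ≠ 0 := by
  intro h0
  unfold Opp at h
  have : cr d (v (next c) - v c) = cr d (v (next c) - z) - cr d (v c - z) := by
    simp only [cr, Prod.fst_sub, Prod.snd_sub]
    ring
  rw [this, sub_eq_zero] at h0
  rw [h0] at h
  nlinarith [mul_self_nonneg (cr d (v c - z))]

theorem par_mem {z d : ℝ × ℝ} {c : Fin n} (h : Opp v z d c) :
    z + par v z d c • d ∈ edge v c := by
  have hne := opp_ne h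
  have hβ : cr d (v (next c) - v c) = cr d (v (next c) - z) - cr d (v c - z) := by
    simp only [cr, Prod.fst_sub, Prod.snd_sub]
    ring
  unfold Opp at h
  set A := cr d (v c - z) with hA
  set B := cr d (v (next c) - z) with hB
  have hAB : B - A ≠ 0 := by rwa [hβ] at hne
  unfold edge
  rw [segment_eq_image]
  have hlam : 0 ≤ -A / (B - A) ∧ -A / (B - A) ≤ 1 := by
    rcases lt_or_gt_of_ne hAB with h0 | h0
    · have h1 : 0 < A := by
        by_contra hcon
        nlinarith
      have h2 : B < 0 := by
        by_contra hcon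
        nlinarith
      constructor
      · exact div_nonneg_of_nonpos (by linarith) h0.le
      · rw [div_le_one_of_neg h0]
        linarith
    · have h1 : A < 0 := by
        by_contra hcon
        nlinarith
      have h2 : 0 < B := by
        by_contra hcon
        nlinarith
      constructor
      · exact div_nonneg (by linarith) h0.le
      · rw [div_le_one h0]
        linarith
  refine ⟨-A / (B - A), hlam, ?_⟩
  unfold par
  rw [hβ]
  apply Prod.ext
  · simp only [Prod.fst_add, Prod.smul_fst, smul_eq_mul]
    field_simp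
    rw [hA, hB]
    simp only [cr, Prod.fst_sub, Prod.snd_sub]
    ring
  · simp only [Prod.snd_add, Prod.smul_snd, smul_eq_mul]
    field_simp
    rw [hA, hB]
    simp only [cr, Prod.fst_sub, Prod.snd_sub]
    ring

theorem edge_par {z d : ℝ × ℝ} (hz : ∀ i, cr d (v i - z) ≠ 0) {c : Fin n} {s : ℝ}
    (hs : z + s • d ∈ edge v c) : Opp v z d c ∧ s = par v z d c := by
  have hcr := cr_edge hs
  unfold edge at hs
  rw [segment_eq_image] at hs
  obtain ⟨t, ⟨ht0, ht1⟩, ht⟩ := hs
  simp only at ht
  set A := cr d (v c - z) with hA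
  set B := cr d (v (next c) - z) with hB
  have hA0 : A ≠ 0 := hz c
  have hB0 : B ≠ 0 := hz (next c)
  have h1 : (1 - t) * A + t * B = 0 := by
    have e1 : (1 - t) * A + t * B = cr d ((1 - t) • v c + t • v (next c) - z) := by
      rw [hA, hB]
      simp only [cr, Prod.fst_sub, Prod.snd_sub, Prod.fst_add, Prod.snd_add, Prod.smul_fst,
        Prod.smul_snd, smul_eq_mul]
      ring
    rw [e1, ht]
    simp only [cr, Prod.fst_sub, Prod.snd_sub, Prod.fst_add, Prod.snd_add, Prod.smul_fst,
      Prod.smul_snd, smul_eq_mul]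
    ring
  have hopp : Opp v z d c := by
    unfold Opp
    rw [← hA, ← hB]
    by_contra hcon
    push Not at hcon
    have h2 : 0 < A * B := lt_of_le_of_ne hcon (mul_ne_zero hA0 hB0).symm
    have h3 : (1 - t) * (A * A) + t * (A * B) = 0 := by
      have : (1 - t) * (A * A) + t * (A * B) = ((1 - t) * A + t * B) * A := by ring
      rw [this, h1, zero_mul]
    have h4 : 0 < A * A := mul_self_pos.2 hA0
    rcases eq_or_lt_of_le ht0 with h5 | h5
    · rw [← h5] at h3
      linarith
    · have := mul_pos h5 h2
      have := mul_nonneg (sub_nonneg.2 ht1) h4.le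
      linarith
  refine ⟨hopp, ?_⟩
  have hne := opp_ne hopp
  unfold par
  rw [eq_div_iff hne]
  have e2 : cr (v (next c) - v c) (z + s • d - v c) =
      cr (v (next c) - v c) (z - v c) - s * cr d (v (next c) - v c) := by
    simp only [cr, Prod.fst_sub, Prod.snd_sub, Prod.fst_add, Prod.snd_add, Prod.smul_fst,
      Prod.smul_snd, smul_eq_mul]
    ring
  rw [e2] at hcr
  linarith

theorem line_ne_vertex {z d : ℝ × ℝ} (hz : ∀ i, cr d (v i - z) ≠ 0) (s : ℝ) (i : Fin n) :
    z + s • d ≠ v i := by
  intro h
  apply hz i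
  rw [← h]
  simp only [cr, Prod.fst_sub, Prod.snd_sub, Prod.fst_add, Prod.snd_add, Prod.smul_fst,
    Prod.smul_snd, smul_eq_mul]
  ring

theorem par_inj (h : IsSimpleClosed v) {z d : ℝ × ℝ} (hz : ∀ i, cr d (v i - z) ≠ 0)
    {c c' : Fin n} (hc : Opp v z d c) (hc' : Opp v z d c') (heq : par v z d c = par v z d c') :
    c = c' := by
  by_contra hne
  have h1 := par_mem hc
  have h2 := par_mem hc'
  rw [← heq] at h2
  obtain ⟨i, hi⟩ := meet_vertex h hne h1 h2
  exact line_ne_vertex hz _ i hi

open Classical in
/-- The number of crossings beyond the parameter `s`. -/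
noncomputable def cnt (v : Fin n → ℝ × ℝ) (z d : ℝ × ℝ) (s : ℝ) : ℕ :=
  (Finset.univ.filter fun c => Opp v z d c ∧ s < par v z d c).card

theorem odd_cnt_of_iff {z d : ℝ × ℝ} {s s' : ℝ}
    (h : ∀ c, Opp v z d c → (s < par v z d c ↔ s' < par v z d c)) :
    cnt v z d s = cnt v z d s' := by
  classical
  unfold cnt
  congr 1
  ext c
  simp only [Finset.mem_filter, Finset.mem_univ, true_and]
  constructor
  · rintro ⟨h1, h2⟩
    exact ⟨h1, (h c h1).1 h2⟩
  · rintro ⟨h1, h2⟩
    exact ⟨h1, (h c h1).2 h2⟩

/-- Eventually the parameters different from `s0` are on the same side. -/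
theorem eventually_side {z d : ℝ × ℝ} (s0 : ℝ) :
    ∀ᶠ s in 𝓝 s0, ∀ c, par v z d c ≠ s0 → (s < par v z d c ↔ s0 < par v z d c) := by
  rw [eventually_all]
  intro c
  by_cases h : par v z d c = s0
  · exact Eventually.of_forall fun s h' => absurd h h'
  · rcases lt_or_gt_of_ne h with h1 | h1
    · filter_upwards [lt_mem_nhds h1] with s hs _
      constructor
      · intro h2
        linarith
      · intro h2
        linarith
    · filter_upwards [gt_mem_nhds h1] with s hs _
      exact ⟨fun _ => h1, fun _ => hs⟩

/-- At a non-critical parameter everything is locally constant. -/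
theorem local_const (h : IsPolygon v P) {z d : ℝ × ℝ} (hz : ∀ i, cr d (v i - z) ≠ 0) {s0 : ℝ}
    (hs0 : z + s0 • d ∉ curve v) :
    ∀ᶠ s in 𝓝 s0, (z + s • d ∈ P ↔ z + s0 • d ∈ P) ∧ cnt v z d s = cnt v z d s0 := by
  have hc : Continuous fun s : ℝ => z + s • d := by fun_prop
  have h1 : ∀ᶠ s in 𝓝 s0, (z + s • d ∈ P ↔ z + s0 • d ∈ P) := by
    by_cases h2 : z + s0 • d ∈ P
    · have h3 : z + s0 • d ∈ interior P := by
        by_contra h4
        apply hs0
        rw [← h.boundary, h.compact.isClosed.frontier_eq]
        exact ⟨h2, h4⟩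
      filter_upwards [hc.tendsto s0 (isOpen_interior.mem_nhds h3)] with s hs
      have : z + s • d ∈ interior P := hs
      exact ⟨fun _ => h2, fun _ => interior_subset this⟩
    · filter_upwards [hc.tendsto s0 (h.compact.isClosed.isOpen_compl.mem_nhds h2)] with s hs
      have : z + s • d ∉ P := hs
      exact ⟨fun h3 => absurd h3 this, fun h3 => absurd h3 h2⟩
  filter_upwards [h1, eventually_side (v := v) (z := z) (d := d) s0] with s hs1 hs2
  refine ⟨hs1, odd_cnt_of_iff fun c hopp => hs2 c ?_⟩
  intro h3
  apply hs0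
  rw [← h3]
  exact mem_iUnion.2 ⟨c, par_mem hopp⟩

/-- The parity statement at the parameter `s`. -/
def Good (v : Fin n → ℝ × ℝ) (P : Set (ℝ × ℝ)) (z d : ℝ × ℝ) (s : ℝ) : Prop :=
  z + s • d ∈ P ↔ Odd (cnt v z d s)

theorem good_local (h : IsPolygon v P) {z d : ℝ × ℝ} (hz : ∀ i, cr d (v i - z) ≠ 0) (s0 : ℝ) :
    (∀ᶠ s in 𝓝[≠] s0, Good v P z d s) ∨ (∀ᶠ s in 𝓝[≠] s0, ¬ Good v P z d s) := by
  classical
  by_cases hs0 : z + s0 • d ∈ curve v
  · obtain ⟨c, hc⟩ := mem_iUnion.1 hs0
    obtain ⟨hopp, hpar⟩ := edge_par hz hc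
    have hother : ∀ c', c' ≠ c → z + s0 • d ∉ edge v c' := by
      intro c' hne h1
      obtain ⟨hopp', hpar'⟩ := edge_par hz h1
      exact hne (par_inj h.simple hz hopp' hopp (hpar'.symm.trans hpar))
    have hβ : cr (v (next c) - v c) d ≠ 0 := by
      have := opp_ne hopp
      intro h0
      apply this
      simp only [cr, Prod.fst_sub, Prod.snd_sub] at h0 ⊢
      linarith
    have hpc : par v z d c = s0 := hpar.symm
    have hnep : ∀ c', Opp v z d c' → c' ≠ c → par v z d c' ≠ s0 := by
      intro c' h1 h2 h3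
      exact h2 (par_inj h.simple hz h1 hopp (h3.trans hpar))
    have hside := eventually_side (v := v) (z := z) (d := d) s0
    -- the count on the right and on the left
    have hcntR : ∀ᶠ s in 𝓝[>] s0, cnt v z d s = cnt v z d s0 := by
      have hgt : ∀ᶠ s in 𝓝[>] s0, s0 < s := self_mem_nhdsWithin
      filter_upwards [hgt, hside.filter_mono nhdsWithin_le_nhds] with s hs1 hs2
      apply odd_cnt_of_iff
      intro c' h1
      by_cases h2 : c' = c
      · rw [h2, hpc]
        constructor
        · intro h3
          linarith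
        · intro h3
          linarith
      · exact hs2 c' (hnep c' h1 h2)
    have hcntL : ∀ᶠ s in 𝓝[<] s0, cnt v z d s = cnt v z d s0 + 1 := by
      have hlt : ∀ᶠ s in 𝓝[<] s0, s < s0 := self_mem_nhdsWithin
      filter_upwards [hlt, hside.filter_mono nhdsWithin_le_nhds] with s hs1 hs2
      unfold cnt
      have : (Finset.univ.filter fun c => Opp v z d c ∧ s < par v z d c) =
          insert c (Finset.univ.filter fun c => Opp v z d c ∧ s0 < par v z d c) := by
        ext c'
        simp only [Finset.mem_filter, Finset.mem_univ, true_and, Finset.mem_insert]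
        constructor
        · rintro ⟨h1, h2⟩
          by_cases h3 : c' = c
          · exact Or.inl h3
          · exact Or.inr ⟨h1, (hs2 c' (hnep c' h1 h3)).1 h2⟩
        · rintro (h3 | ⟨h1, h2⟩)
          · rw [h3]
            exact ⟨hopp, by rw [hpc]; exact hs1⟩
          · exact ⟨h1, hs1.trans h2⟩
      rw [this, Finset.card_insert_of_notMem]
      simp [hpc]
    -- the two sides
    have hmapR : Tendsto (fun s : ℝ => s - s0) (𝓝[>] s0) (𝓝[>] 0) := by
      apply tendsto_nhdsWithin_of_tendsto_nhds_of_eventually_within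
      · have : Tendsto (fun s : ℝ => s - s0) (𝓝 s0) (𝓝 (s0 - s0)) :=
          (continuous_id.sub continuous_const).tendsto s0
        rw [sub_self] at this
        exact this.mono_left nhdsWithin_le_nhds
      · have hgt : ∀ᶠ s in 𝓝[>] s0, s0 < s := self_mem_nhdsWithin
        filter_upwards [hgt] with s hs
        simp only [mem_Ioi]
        linarith
    have hmapL : Tendsto (fun s : ℝ => s0 - s) (𝓝[<] s0) (𝓝[>] 0) := by
      apply tendsto_nhdsWithin_of_tendsto_nhds_of_eventually_within
      · have : Tendsto (fun s : ℝ => s0 - s) (𝓝 s0) (𝓝 (s0 - s0)) :=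
          (continuous_const.sub continuous_id).tendsto s0
        rw [sub_self] at this
        exact this.mono_left nhdsWithin_le_nhds
      · have hlt : ∀ᶠ s in 𝓝[<] s0, s < s0 := self_mem_nhdsWithin
        filter_upwards [hlt] with s hs
        simp only [mem_Ioi]
        linarith
    have hR : ∀ s, z + s0 • d + (s - s0) • d = z + s • d := by
      intro s
      rw [sub_smul]
      abel
    have hL : ∀ s, z + s0 • d - (s0 - s) • d = z + s • d := by
      intro s
      rw [sub_smul]
      abel
    have hsup : 𝓝[≠] s0 = 𝓝[<] s0 ⊔ 𝓝[>] s0 := (nhdsLT_sup_nhdsGT s0).symm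
    rcases flip h hc hother hβ with h1 | h1
    · have h2 : ∀ᶠ s in 𝓝[>] s0, z + s • d ∈ P := by
        filter_upwards [hmapR.eventually h1] with s hs
        rw [← hR s]
        exact hs.1
      have h3 : ∀ᶠ s in 𝓝[<] s0, z + s • d ∉ P := by
        filter_upwards [hmapL.eventually h1] with s hs
        rw [← hL s]
        exact hs.2
      by_cases hodd : Odd (cnt v z d s0)
      · left
        rw [hsup, eventually_sup]
        constructor
        · filter_upwards [h3, hcntL] with s hs1 hs2
          unfold Good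
          rw [hs2]
          have : ¬ Odd (cnt v z d s0 + 1) := by
            rw [Nat.not_odd_iff_even]
            exact hodd.add_one
          exact ⟨fun h4 => absurd h4 hs1, fun h4 => absurd h4 this⟩
        · filter_upwards [h2, hcntR] with s hs1 hs2
          unfold Good
          rw [hs2]
          exact ⟨fun _ => hodd, fun _ => hs1⟩
      · right
        rw [hsup, eventually_sup]
        have heven := Nat.not_odd_iff_even.1 hodd
        constructor
        · filter_upwards [h3, hcntL] with s hs1 hs2
          unfold Good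
          rw [hs2]
          intro h4
          exact hs1 (h4.2 heven.add_one)
        · filter_upwards [h2, hcntR] with s hs1 hs2
          unfold Good
          rw [hs2]
          intro h4
          exact hodd (h4.1 hs1)
    · have h2 : ∀ᶠ s in 𝓝[>] s0, z + s • d ∉ P := by
        filter_upwards [hmapR.eventually h1] with s hs
        rw [← hR s]
        exact hs.1
      have h3 : ∀ᶠ s in 𝓝[<] s0, z + s • d ∈ P := by
        filter_upwards [hmapL.eventually h1] with s hs
        rw [← hL s]
        exact hs.2
      by_cases hodd : Odd (cnt v z d s0)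
      · right
        rw [hsup, eventually_sup]
        constructor
        · filter_upwards [h3, hcntL] with s hs1 hs2
          unfold Good
          rw [hs2]
          intro h4
          have : ¬ Odd (cnt v z d s0 + 1) := by
            rw [Nat.not_odd_iff_even]
            exact hodd.add_one
          exact this (h4.1 hs1)
        · filter_upwards [h2, hcntR] with s hs1 hs2
          unfold Good
          rw [hs2]
          intro h4
          exact hs1 (h4.2 hodd)
      · left
        rw [hsup, eventually_sup]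
        have heven := Nat.not_odd_iff_even.1 hodd
        constructor
        · filter_upwards [h3, hcntL] with s hs1 hs2
          unfold Good
          rw [hs2]
          exact ⟨fun _ => heven.add_one, fun _ => hs1⟩
        · filter_upwards [h2, hcntR] with s hs1 hs2
          unfold Good
          rw [hs2]
          exact ⟨fun h4 => absurd h4 hs1, fun h4 => absurd h4 hodd⟩
  · have h1 := local_const h hz hs0
    by_cases h2 : Good v P z d s0
    · left
      filter_upwards [h1.filter_mono nhdsWithin_le_nhds] with s hs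
      unfold Good at h2 ⊢
      rw [hs.1, hs.2]
      exact h2
    · right
      filter_upwards [h1.filter_mono nhdsWithin_le_nhds] with s hs
      unfold Good at h2 ⊢
      rw [hs.1, hs.2]
      exact h2

/-- Far away the parity statement holds. -/
theorem good_far (h : IsPolygon v P) {z d : ℝ × ℝ} (hz : ∀ i, cr d (v i - z) ≠ 0) :
    ∃ s0 : ℝ, ∀ᶠ s in 𝓝[≠] s0, Good v P z d s := by
  classical
  have h3 := h.simple.three_le
  have hd : d ≠ 0 := by
    rintro rfl
    apply hz ⟨0, by omega⟩
    simp [cr]
  have hdn : 0 < ‖d‖ := norm_pos_iff.2 hd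
  obtain ⟨R, hR⟩ := h.compact.isBounded.exists_norm_le
  -- beyond `S` we are outside of `P` and there are no more crossings
  let S : ℝ := (R + ‖z‖) / ‖d‖ + ∑ c, |par v z d c| + 1
  have hRz : ∀ s, S < s → z + s • d ∉ P := by
    intro s hs hP
    have h1 := hR _ hP
    have h2 : ‖s • d‖ ≤ R + ‖z‖ := by
      have : s • d = (z + s • d) - z := by abel
      rw [this]
      exact (norm_sub_le _ _).trans (by linarith)
    have h4 : 0 ≤ ∑ c, |par v z d c| := Finset.sum_nonneg fun c _ => abs_nonneg _
    have h5 : (R + ‖z‖) / ‖d‖ < s := by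
      simp only [S] at hs
      linarith
    rw [norm_smul, Real.norm_eq_abs] at h2
    rw [div_lt_iff₀ hdn] at h5
    have h6 : s * ‖d‖ ≤ |s| * ‖d‖ := mul_le_mul_of_nonneg_right (le_abs_self s) hdn.le
    linarith
  have hR0 : 0 ≤ R := by
    obtain ⟨p, hp⟩ := h.connected.nonempty
    exact (norm_nonneg p).trans (hR p (interior_subset hp))
  have hcnt : ∀ s, S < s → cnt v z d s = 0 := by
    intro s hs
    unfold cnt
    rw [Finset.card_eq_zero, Finset.filter_eq_empty_iff]
    rintro c - ⟨-, h1⟩
    have h2 : |par v z d c| ≤ ∑ c, |par v z d c| :=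
      Finset.single_le_sum (fun c _ => abs_nonneg (par v z d c)) (Finset.mem_univ c)
    have h4 : 0 ≤ (R + ‖z‖) / ‖d‖ := div_nonneg (by linarith [norm_nonneg z]) hdn.le
    have h5 := le_abs_self (par v z d c)
    simp only [S] at hs
    linarith
  refine ⟨S + 1, ?_⟩
  have : ∀ᶠ s in 𝓝 (S + 1), S < s := lt_mem_nhds (by linarith)
  filter_upwards [this.filter_mono nhdsWithin_le_nhds] with s hs
  unfold Good
  rw [hcnt s hs]
  exact ⟨fun h1 => absurd h1 (hRz s hs), fun h1 => absurd h1 (by decide)⟩

/-- The parity criterion. -/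
theorem parity (h : IsPolygon v P) {z d : ℝ × ℝ} (hz : ∀ i, cr d (v i - z) ≠ 0)
    (hzc : z ∉ curve v) : z ∈ P ↔ Odd (cnt v z d 0) := by
  let A : Set ℝ := {s0 | ∀ᶠ s in 𝓝[≠] s0, Good v P z d s}
  let B : Set ℝ := {s0 | ∀ᶠ s in 𝓝[≠] s0, ¬ Good v P z d s}
  have hA : IsOpen A := isOpen_setOfPred_eventually_nhdsWithin
  have hB : IsOpen B := isOpen_setOfPred_eventually_nhdsWithin
  have hAB : Aᶜ = B := by
    ext s0
    constructor
    · intro h1
      rcases good_local h hz s0 with h2 | h2
      · exact absurd h2 h1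
      · exact h2
    · intro h1 h2
      have h3 : ∀ᶠ s in 𝓝[≠] s0, False := by
        filter_upwards [h1, h2] with s hs1 hs2
        exact hs1 hs2
      obtain ⟨s, hs⟩ := h3.exists
      exact hs
  have hclopen : IsClopen A := ⟨by rw [← isOpen_compl_iff, hAB]; exact hB, hA⟩
  have huniv : A = univ := by
    rcases isClopen_iff.1 hclopen with h1 | h1
    · obtain ⟨s0, hs0⟩ := good_far h hz
      have : s0 ∈ A := hs0
      rw [h1] at this
      exact absurd this (notMem_empty _)
    · exact h1
  have h0 : (0 : ℝ) ∈ A := huniv ▸ mem_univ _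
  have h0' : ∀ᶠ s in 𝓝[≠] (0 : ℝ), Good v P z d s := h0
  have h1 : z + (0 : ℝ) • d ∉ curve v := by simpa using hzc
  have h2 := (local_const h hz h1).filter_mono (nhdsWithin_le_nhds (s := {0}ᶜ))
  obtain ⟨s, hs1, hs2, hs3⟩ := (h0'.and h2).exists
  unfold Good at hs1
  rw [hs2, hs3] at hs1
  simpa using hs1

end

end Pool.Agent.T6.H89.Vis
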