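import Pool.Agent.T6.H89.Vis.Basic

/-!
# The closed region between two graphs of functions
-/

set_option autoImplicit false

open Set Topology

namespace Pool.Agent.T6.H89.Vis

/-- The closed region between the graphs of `L` and `U` over `[a, b]`. -/
def reg (a b : ℝ) (L U : ℝ → ℝ) : Set (ℝ × ℝ) :=
  {p | p.1 ∈ Icc a b ∧ L p.1 ≤ p.2 ∧ p.2 ≤ U p.1}

/-- The open region between the graphs of `L` and `U` over `(a, b)`. -/
def ireg (a b : ℝ) (L U : ℝ → ℝ) : Set (ℝ × ℝ) :=
  {p | p.1 ∈ Ioo a b ∧ L p.1 < p.2 ∧ p.2 < U p.1}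

def phi (L U : ℝ → ℝ) (p : ℝ × ℝ) : ℝ × ℝ := (p.1, (1 - p.2) * L p.1 + p.2 * U p.1)

theorem continuous_phi {L U : ℝ → ℝ} (hL : Continuous L) (hU : Continuous U) :
    Continuous (phi L U) := by
  unfold phi
  fun_prop

variable {a b : ℝ} {L U : ℝ → ℝ}

theorem reg_eq_image (hlt : ∀ x ∈ Ioo a b, L x < U x) (ha : L a = U a) (hb : L b = U b) :
    reg a b L U = phi L U '' (Icc a b ×ˢ Icc 0 1) := by
  have hle : ∀ x ∈ Icc a b, L x ≤ U x := by
    intro x hx
    rcases eq_or_lt_of_le hx.1 with h | h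
    · rw [← h, ha]
    · rcases eq_or_lt_of_le hx.2 with h' | h'
      · rw [h', hb]
      · exact (hlt x ⟨h, h'⟩).le
  ext ⟨x, y⟩
  constructor
  · rintro ⟨hx, h1, h2⟩
    simp only at hx h1 h2
    rcases eq_or_lt_of_le (hle x hx) with h | h
    · refine ⟨(x, 0), ⟨hx, by simp⟩, ?_⟩
      simp only [phi, sub_zero, one_mul, zero_mul, add_zero, Prod.mk.injEq, true_and]
      linarith
    · refine ⟨(x, (y - L x) / (U x - L x)), ⟨hx, ?_, ?_⟩, ?_⟩
      · exact div_nonneg (by linarith) (by linarith)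
      · rw [div_le_one (by linarith)]
        linarith
      · have : U x - L x ≠ 0 := by linarith
        simp only [phi, Prod.mk.injEq, true_and]
        field_simp
        ring
  · rintro ⟨⟨x', t⟩, ⟨hx, ht⟩, h⟩
    simp only [phi, Prod.mk.injEq] at h
    obtain ⟨rfl, rfl⟩ := h
    have := hle x' hx
    refine ⟨hx, ?_, ?_⟩
    · simp only
      nlinarith [ht.1, ht.2, mul_nonneg ht.1 (sub_nonneg.2 this)]
    · simp only
      nlinarith [ht.1, ht.2, mul_nonneg (sub_nonneg.2 ht.2) (sub_nonneg.2 this)]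

theorem ireg_eq_image (hlt : ∀ x ∈ Ioo a b, L x < U x) :
    ireg a b L U = phi L U '' (Ioo a b ×ˢ Ioo 0 1) := by
  ext ⟨x, y⟩
  constructor
  · rintro ⟨hx, h1, h2⟩
    simp only at hx h1 h2
    have h := hlt x hx
    refine ⟨(x, (y - L x) / (U x - L x)), ⟨hx, ?_, ?_⟩, ?_⟩
    · exact div_pos (by linarith) (by linarith)
    · rw [div_lt_one (by linarith)]
      linarith
    · have : U x - L x ≠ 0 := by linarith
      simp only [phi, Prod.mk.injEq, true_and]
      field_simp
      ring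
  · rintro ⟨⟨x', t⟩, ⟨hx, ht⟩, h⟩
    simp only [phi, Prod.mk.injEq] at h
    obtain ⟨rfl, rfl⟩ := h
    have := hlt x' hx
    refine ⟨hx, ?_, ?_⟩
    · simp only
      nlinarith [ht.1, ht.2, mul_pos ht.1 (sub_pos.2 this)]
    · simp only
      nlinarith [ht.1, ht.2, mul_pos (sub_pos.2 ht.2) (sub_pos.2 this)]

theorem isCompact_reg (hL : Continuous L) (hU : Continuous U) (hlt : ∀ x ∈ Ioo a b, L x < U x)
    (ha : L a = U a) (hb : L b = U b) : IsCompact (reg a b L U) := by
  rw [reg_eq_image hlt ha hb]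
  exact (isCompact_Icc.prod isCompact_Icc).image (continuous_phi hL hU)

theorem isOpen_ireg (hL : Continuous L) (hU : Continuous U) : IsOpen (ireg a b L U) := by
  have h1 : IsOpen {p : ℝ × ℝ | p.1 ∈ Ioo a b} := isOpen_Ioo.preimage continuous_fst
  have h2 : IsOpen {p : ℝ × ℝ | L p.1 < p.2} :=
    isOpen_lt (hL.comp continuous_fst) continuous_snd
  have h3 : IsOpen {p : ℝ × ℝ | p.2 < U p.1} :=
    isOpen_lt continuous_snd (hU.comp continuous_fst)
  exact h1.inter (h2.inter h3)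

theorem exists_pos_of_eventually {Q : ℝ → Prop} (h : ∀ᶠ e in 𝓝 (0 : ℝ), Q e) :
    ∃ e, 0 < e ∧ Q e := by
  have h1 : ∀ᶠ e in 𝓝[>] (0 : ℝ), Q e := h.filter_mono nhdsWithin_le_nhds
  obtain ⟨e, h2, h3⟩ := (h1.and self_mem_nhdsWithin).exists
  exact ⟨e, h3, h2⟩

theorem interior_reg (hL : Continuous L) (hU : Continuous U) :
    interior (reg a b L U) = ireg a b L U := by
  apply subset_antisymm
  · rintro p hp
    have hpP := interior_subset hp
    have hn : reg a b L U ∈ 𝓝 p := mem_interior_iff_mem_nhds.1 hp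
    obtain ⟨x, y⟩ := p
    obtain ⟨⟨h1, h2⟩, h3, h4⟩ := hpP
    simp only at h1 h2 h3 h4
    have key : ∀ d : ℝ × ℝ, ∃ e : ℝ, 0 < e ∧ ((x, y) : ℝ × ℝ) + e • d ∈ reg a b L U := by
      intro d
      have hc : Continuous fun e : ℝ => ((x, y) : ℝ × ℝ) + e • d := by fun_prop
      have : Filter.Tendsto (fun e : ℝ => ((x, y) : ℝ × ℝ) + e • d) (𝓝 0) (𝓝 (x, y)) := by
        have := hc.tendsto 0
        simpa using this
      exact exists_pos_of_eventually (this.eventually hn)
    refine ⟨⟨?_, ?_⟩, ?_, ?_⟩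
    · obtain ⟨e, he, ⟨h5, h6⟩, h7, h8⟩ := key (-1, 0)
      simp at h5
      simp only
      linarith
    · obtain ⟨e, he, ⟨h5, h6⟩, h7, h8⟩ := key (1, 0)
      simp at h6
      simp only
      linarith
    · obtain ⟨e, he, ⟨h5, h6⟩, h7, h8⟩ := key (0, -1)
      simp at h7
      simp only
      linarith
    · obtain ⟨e, he, ⟨h5, h6⟩, h7, h8⟩ := key (0, 1)
      simp at h8
      simp only
      linarith
  · apply interior_maximal _ (isOpen_ireg hL hU)
    rintro p ⟨h1, h2, h3⟩
    exact ⟨⟨h1.1.le, h1.2.le⟩, h2.le, h3.le⟩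

theorem closure_interior_reg (hab : a < b) (hL : Continuous L) (hU : Continuous U)
    (hlt : ∀ x ∈ Ioo a b, L x < U x) (ha : L a = U a) (hb : L b = U b) :
    closure (interior (reg a b L U)) = reg a b L U := by
  apply subset_antisymm
  · exact (isCompact_reg hL hU hlt ha hb).isClosed.closure_interior_subset
  · rw [interior_reg hL hU, ireg_eq_image hlt, reg_eq_image hlt ha hb]
    have : Icc a b ×ˢ Icc (0 : ℝ) 1 = closure (Ioo a b ×ˢ Ioo (0 : ℝ) 1) := by
      rw [closure_prod_eq, closure_Ioo hab.ne, closure_Ioo zero_ne_one]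
    rw [this]
    exact image_closure_subset_closure_image (continuous_phi hL hU)

theorem isConnected_interior_reg (hab : a < b) (hL : Continuous L) (hU : Continuous U)
    (hlt : ∀ x ∈ Ioo a b, L x < U x) : IsConnected (interior (reg a b L U)) := by
  rw [interior_reg hL hU, ireg_eq_image hlt]
  exact ((isConnected_Ioo hab).prod (isConnected_Ioo zero_lt_one)).image _
    (continuous_phi hL hU).continuousOn

theorem frontier_reg (hL : Continuous L) (hU : Continuous U)
    (hlt : ∀ x ∈ Ioo a b, L x < U x) (ha : L a = U a) (hb : L b = U b) :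
    frontier (reg a b L U) = {p | p.1 ∈ Icc a b ∧ (p.2 = L p.1 ∨ p.2 = U p.1)} := by
  rw [(isCompact_reg hL hU hlt ha hb).isClosed.frontier_eq, interior_reg hL hU]
  ext ⟨x, y⟩
  constructor
  · rintro ⟨⟨h1, h2, h3⟩, h4⟩
    refine ⟨h1, ?_⟩
    simp only at h1 h2 h3 ⊢
    by_contra h5
    push Not at h5
    refine h4 ⟨⟨?_, ?_⟩, lt_of_le_of_ne h2 h5.1.symm, lt_of_le_of_ne h3 h5.2⟩
    · apply lt_of_le_of_ne h1.1
      rintro rfl
      exact h5.1 (by linarith)
    · apply lt_of_le_of_ne h1.2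
      rintro rfl
      exact h5.1 (by linarith)
  · rintro ⟨h1, h2⟩
    simp only at h1 h2
    have hle : L x ≤ U x := by
      rcases eq_or_lt_of_le h1.1 with h | h
      · rw [← h, ha]
      · rcases eq_or_lt_of_le h1.2 with h' | h'
        · rw [h', hb]
        · exact (hlt x ⟨h, h'⟩).le
    refine ⟨⟨h1, ?_, ?_⟩, ?_⟩
    · simp only
      rcases h2 with h2 | h2 <;> linarith
    · simp only
      rcases h2 with h2 | h2 <;> linarith
    · rintro ⟨h3, h4, h5⟩
      simp only at h4 h5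
      rcases h2 with h2 | h2 <;> linarith

end Pool.Agent.T6.H89.Vis
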