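import Pool.Agent.T6.H89.Vis.Mono

/-!
# Lines of sight in monotone polygons
-/

set_option autoImplicit false

open Set Topology

namespace Pool.Agent.T6.H89.Vis.Mono

variable (M : Mono)

theorem U_ge {i j : ℕ} (hij : i < j) (hj : j ≤ M.m) {c : ℝ}
    (h : ∀ s, i ≤ s → s ≤ j → c ≤ M.YU s) {x : ℝ} (h1 : M.XU i ≤ x) (h2 : x ≤ M.XU j) :
    c ≤ M.U x := by
  obtain ⟨s, hs1, hs2, h3, h4⟩ := exists_piece' hij h1 h2
  rw [U, pl_eq M.hXU (by omega) h3 h4]
  exact interp_ge (M.hXU _ (by omega)) (h _ hs1 (by omega)) (h _ (by omega) (by omega)) h3 h4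

/-- A gun sees a target to the right. -/
theorem seeR {s : ℕ} (hs : s < M.q) (hg : M.YL s = -1) (ha : M.YL (s + 1) = 0) {X Y : ℝ}
    (hX1 : M.XL s < X) (hX : X ≤ M.XL M.q) (hY : 0 ≤ Y)
    (hU : ∀ x, M.XL s ≤ x → x ≤ X → Y ≤ M.U x)
    (hsee : X - M.XL s ≤ (Y + 1) * (M.XL (s + 1) - M.XL s)) :
    segment ℝ (M.XL s, M.YL s) (X, Y) ⊆ M.P := by
  rintro ⟨x, y⟩ hp
  rw [mem_seg_iff hX1, hg] at hp
  obtain ⟨⟨h1, h2⟩, h3⟩ := hp
  simp only at h1 h2 h3
  have h0 : M.XL 0 ≤ M.XL s := mono_le M.hXL (by omega) hs.le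
  have hd : 0 < X - M.XL s := by linarith
  have hb : 0 < M.XL (s + 1) - M.XL s := by linarith [M.hXL s hs]
  set σ := (Y - -1) / (X - M.XL s) with hσ
  have hσ0 : 0 ≤ σ := div_nonneg (by linarith) hd.le
  have hσd : σ * (X - M.XL s) = Y + 1 := by
    rw [hσ]
    field_simp
    ring
  have hσb : 1 ≤ σ * (M.XL (s + 1) - M.XL s) := by
    have e : σ * (M.XL (s + 1) - M.XL s) =
      ((Y + 1) * (M.XL (s + 1) - M.XL s)) / (X - M.XL s) := by
      rw [hσ]
      field_simp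
      ring
    rw [e, le_div_iff₀ hd]
    linarith
  refine ⟨⟨by simp only; linarith, by simp only; linarith⟩, ?_, ?_⟩
  · simp only
    rcases le_total x (M.XL (s + 1)) with h4 | h4
    · rw [L, pl_eq M.hXL hs h1 h4, hg, ha, h3]
      have h5 : (0 - -1) / (M.XL (s + 1) - M.XL s) ≤ σ := by
        rw [div_le_iff₀ hb]
        linarith
      have h6 := mul_le_mul_of_nonneg_right h5 (sub_nonneg.2 h1)
      linarith
    · have h5 := M.L_nonpos (x := x) (by linarith) (by linarith)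
      have h6 := mul_le_mul_of_nonneg_left (sub_le_sub_right h4 (M.XL s)) hσ0
      linarith
  · simp only
    refine le_trans ?_ (hU x h1 h2)
    have h6 := mul_le_mul_of_nonneg_left (sub_le_sub_right h2 (M.XL s)) hσ0
    linarith

/-- A gun does not see a target to the right. -/
theorem not_seeR {s : ℕ} (hs : s < M.q) (hg : M.YL s = -1) (ha : M.YL (s + 1) = 0) {X Y : ℝ}
    (hX1 : M.XL (s + 1) < X)
    (hsee : (Y + 1) * (M.XL (s + 1) - M.XL s) < X - M.XL s) :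
    ¬ segment ℝ (M.XL s, M.YL s) (X, Y) ⊆ M.P := by
  intro h
  have hb : M.XL s < M.XL (s + 1) := M.hXL s hs
  have hd : 0 < X - M.XL s := by linarith
  have h1 := h ((mem_seg_iff (by linarith)
    (M.XL (s + 1), M.YL s + (Y - M.YL s) / (X - M.XL s) * (M.XL (s + 1) - M.XL s))).2
      ⟨⟨hb.le, hX1.le⟩, rfl⟩)
  obtain ⟨-, h2, -⟩ := h1
  simp only at h2
  rw [L, pl_vertex M.hXL (by omega) M.hq, ha, hg] at h2
  have e : (Y - -1) / (X - M.XL s) * (M.XL (s + 1) - M.XL s) =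
      ((Y + 1) * (M.XL (s + 1) - M.XL s)) / (X - M.XL s) := by
    field_simp
    ring
  have h3 : ((Y + 1) * (M.XL (s + 1) - M.XL s)) / (X - M.XL s) < 1 := by
    rw [div_lt_one hd]
    exact hsee
  rw [e] at h2
  linarith

/-- A gun sees a target to the left. -/
theorem seeL {s : ℕ} (hs : s < M.q) (hg : M.YL (s + 1) = -1) (ha : M.YL s = 0) {X Y : ℝ}
    (hX1 : X < M.XL (s + 1)) (hX : M.XL 0 ≤ X) (hY : 0 ≤ Y)
    (hU : ∀ x, X ≤ x → x ≤ M.XL (s + 1) → Y ≤ M.U x)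
    (hsee : M.XL (s + 1) - X ≤ (Y + 1) * (M.XL (s + 1) - M.XL s)) :
    segment ℝ (M.XL (s + 1), M.YL (s + 1)) (X, Y) ⊆ M.P := by
  rintro ⟨x, y⟩ hp
  rw [segment_symm, mem_seg_iff hX1, hg] at hp
  obtain ⟨⟨h1, h2⟩, h3⟩ := hp
  simp only at h1 h2 h3
  have h0 : M.XL (s + 1) ≤ M.XL M.q := mono_le M.hXL hs le_rfl
  have hd : 0 < M.XL (s + 1) - X := by linarith
  have hb : 0 < M.XL (s + 1) - M.XL s := by linarith [M.hXL s hs]
  set σ := (Y + 1) / (M.XL (s + 1) - X) with hσ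
  have hσ0 : 0 ≤ σ := div_nonneg (by linarith) hd.le
  have hσd : σ * (M.XL (s + 1) - X) = Y + 1 := by
    rw [hσ]
    field_simp
  have h3' : y = -1 + σ * (M.XL (s + 1) - x) := by
    rw [h3, hσ]
    field_simp
    ring
  have hσb : 1 ≤ σ * (M.XL (s + 1) - M.XL s) := by
    have e : σ * (M.XL (s + 1) - M.XL s) =
      ((Y + 1) * (M.XL (s + 1) - M.XL s)) / (M.XL (s + 1) - X) := by
      rw [hσ]
      field_simp
    rw [e, le_div_iff₀ hd]
    linarith
  refine ⟨⟨by simp only; linarith, by simp only; linarith⟩, ?_, ?_⟩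
  · simp only
    rcases le_total (M.XL s) x with h4 | h4
    · rw [L, pl_eq M.hXL hs h4 h2, hg, ha, h3']
      have h5 : 1 / (M.XL (s + 1) - M.XL s) ≤ σ := by
        rw [div_le_iff₀ hb]
        linarith
      have h6 := mul_le_mul_of_nonneg_right h5 (sub_nonneg.2 h2)
      have e : 0 + (-1 - 0) / (M.XL (s + 1) - M.XL s) * (x - M.XL s) =
          -1 + 1 / (M.XL (s + 1) - M.XL s) * (M.XL (s + 1) - x) := by
        field_simp
        ring
      linarith
    · have h5 := M.L_nonpos (x := x) (by linarith) (by linarith)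
      have h6 := mul_le_mul_of_nonneg_left (sub_le_sub_left h4 (M.XL (s + 1))) hσ0
      linarith
  · simp only
    refine le_trans ?_ (hU x h1 h2)
    have h6 := mul_le_mul_of_nonneg_left (sub_le_sub_left h1 (M.XL (s + 1))) hσ0
    linarith

/-- A gun does not see a target to the left. -/
theorem not_seeL {s : ℕ} (hs : s < M.q) (hg : M.YL (s + 1) = -1) (ha : M.YL s = 0) {X Y : ℝ}
    (hX1 : X < M.XL s)
    (hsee : (Y + 1) * (M.XL (s + 1) - M.XL s) < M.XL (s + 1) - X) :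
    ¬ segment ℝ (M.XL (s + 1), M.YL (s + 1)) (X, Y) ⊆ M.P := by
  intro h
  rw [segment_symm] at h
  have hb : M.XL s < M.XL (s + 1) := M.hXL s hs
  have hd : 0 < M.XL (s + 1) - X := by linarith
  have h1 := h ((mem_seg_iff (by linarith)
    (M.XL s, Y + (M.YL (s + 1) - Y) / (M.XL (s + 1) - X) * (M.XL s - X))).2
      ⟨⟨hX1.le, hb.le⟩, rfl⟩)
  obtain ⟨-, h2, -⟩ := h1
  simp only at h2
  rw [L, pl_vertex M.hXL (by omega) M.hq, ha, hg] at h2
  have e : Y + (-1 - Y) / (M.XL (s + 1) - X) * (M.XL s - X) =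
      -1 + ((Y + 1) * (M.XL (s + 1) - M.XL s)) / (M.XL (s + 1) - X) := by
    field_simp
    ring
  have h3 : ((Y + 1) * (M.XL (s + 1) - M.XL s)) / (M.XL (s + 1) - X) < 1 := by
    rw [div_lt_one hd]
    exact hsee
  rw [e] at h2
  linarith

end Pool.Agent.T6.H89.Vis.Mono
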