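import Pool.Agent.T6.H89.Vis.Parity2

/-!
# Membership in a simple polygon is determined by signs
-/

set_option autoImplicit false

open Set Topology Filter

namespace Pool.Agent.T6.H89.Vis

theorem edge_iff {n : ℕ} {v : Fin n → ℝ × ℝ} {c : Fin n} (hne : v c ≠ v (next c)) (z : ℝ × ℝ) :
    z ∈ edge v c ↔ cr (v (next c) - v c) (z - v c) = 0 ∧
      (v c - z).1 * (v (next c) - z).1 ≤ 0 ∧ (v c - z).2 * (v (next c) - z).2 ≤ 0 := by
  constructor
  · intro h
    refine ⟨cr_edge h, ?_⟩
    unfold edge at h
    rw [segment_eq_image] at h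
    obtain ⟨t, ⟨ht0, ht1⟩, rfl⟩ := h
    simp only [Prod.fst_sub, Prod.snd_sub, Prod.fst_add, Prod.snd_add, Prod.smul_fst,
      Prod.smul_snd, smul_eq_mul]
    have h1 : 0 ≤ t * (1 - t) := mul_nonneg ht0 (sub_nonneg.2 ht1)
    constructor
    · nlinarith [mul_nonneg h1 (mul_self_nonneg ((v (next c)).1 - (v c).1))]
    · nlinarith [mul_nonneg h1 (mul_self_nonneg ((v (next c)).2 - (v c).2))]
  · rintro ⟨h1, h2, h3⟩
    unfold edge
    rw [segment_eq_image]
    generalize v c = a at *
    generalize v (next c) = b at *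
    obtain ⟨a1, a2⟩ := a
    obtain ⟨b1, b2⟩ := b
    obtain ⟨z1, z2⟩ := z
    simp only [cr, Prod.mk_sub_mk] at h1 h2 h3
    have aux : ∀ x y w : ℝ, y - x ≠ 0 → (x - w) * (y - w) ≤ 0 →
        0 ≤ (w - x) / (y - x) ∧ (w - x) / (y - x) ≤ 1 := by
      intro x y w hxy hw
      rcases lt_or_gt_of_ne hxy with h | h
      · constructor
        · apply div_nonneg_of_nonpos _ h.le
          by_contra hcon
          nlinarith
        · rw [div_le_one_of_neg h]
          by_contra hcon
          nlinarith
      · constructor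
        · apply div_nonneg _ h.le
          by_contra hcon
          nlinarith
        · rw [div_le_one h]
          by_contra hcon
          nlinarith
    by_cases hb1 : b1 - a1 = 0
    · have hb2 : b2 - a2 ≠ 0 := by
        intro h
        apply hne
        rw [Prod.mk.injEq]
        constructor <;> linarith
      refine ⟨(z2 - a2) / (b2 - a2), aux a2 b2 z2 hb2 h3, ?_⟩
      simp only [Prod.smul_mk, smul_eq_mul, Prod.mk_add_mk, Prod.mk.injEq]
      rw [hb1] at h1
      have hz1 : z1 = a1 := by
        have : (b2 - a2) * (z1 - a1) = 0 := by linarith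
        rcases mul_eq_zero.1 this with h | h
        · exact absurd h hb2
        · linarith
      constructor
      · rw [hz1]
        have : b1 = a1 := by linarith
        rw [this]
        ring
      · field_simp
        ring
    · refine ⟨(z1 - a1) / (b1 - a1), aux a1 b1 z1 hb1 h2, ?_⟩
      simp only [Prod.smul_mk, smul_eq_mul, Prod.mk_add_mk, Prod.mk.injEq]
      constructor
      · field_simp
        ring
      · field_simp
        linarith

/-- The same signs. -/
def SameSign {n : ℕ} (v v' : Fin n → ℝ × ℝ) (z z' : ℝ × ℝ) : Prop :=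
  ∀ c, SignType.sign (v c - z).1 = SignType.sign (v' c - z').1 ∧
    SignType.sign (v c - z).2 = SignType.sign (v' c - z').2 ∧
    SignType.sign (cr (v (next c) - v c) (z - v c)) =
      SignType.sign (cr (v' (next c) - v' c) (z' - v' c))

theorem le_zero_of_sign {x y x' y' : ℝ} (hx : SignType.sign x = SignType.sign x')
    (hy : SignType.sign y = SignType.sign y') (h : x * y ≤ 0) : x' * y' ≤ 0 := by
  rw [← sign_nonpos_iff, sign_mul] at h ⊢
  rwa [← hx, ← hy]

theorem mem_curve_of_sameSign {n : ℕ} {v v' : Fin n → ℝ × ℝ} {z z' : ℝ × ℝ}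
    (hv : ∀ c, v c ≠ v (next c)) (hv' : ∀ c, v' c ≠ v' (next c)) (hs : SameSign v v' z z')
    (h : z ∈ curve v) : z' ∈ curve v' := by
  obtain ⟨c, hc⟩ := mem_iUnion.1 h
  refine mem_iUnion.2 ⟨c, ?_⟩
  rw [edge_iff (hv c)] at hc
  rw [edge_iff (hv' c)]
  obtain ⟨h1, h2, h3⟩ := hc
  refine ⟨?_, ?_, ?_⟩
  · rw [← sign_eq_zero_iff, ← (hs c).2.2, sign_eq_zero_iff]
    exact h1
  · exact le_zero_of_sign (hs c).1 (hs (next c)).1 h2
  · exact le_zero_of_sign (hs c).2.1 (hs (next c)).2.1 h3

theorem eventually_sign {x y : ℝ} :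
    ∀ᶠ e in 𝓝[>] (0 : ℝ), SignType.sign (cr (1, e) (x, y)) =
      if SignType.sign y = 0 then - SignType.sign x else SignType.sign y := by
  have hpos : ∀ᶠ e in 𝓝[>] (0 : ℝ), 0 < e := self_mem_nhdsWithin
  have hcr : ∀ e : ℝ, cr (1, e) (x, y) = y - e * x := by
    intro e
    simp [cr]
  have hc : Tendsto (fun e : ℝ => y - e * x) (𝓝[>] 0) (𝓝 y) := by
    have : Continuous fun e : ℝ => y - e * x := by fun_prop
    have := this.tendsto 0
    simp only [zero_mul, sub_zero] at this
    exact this.mono_left nhdsWithin_le_nhds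
  rcases lt_trichotomy y 0 with h | h | h
  · have h1 : SignType.sign y = -1 := sign_eq_neg_one_iff.2 h
    rw [h1, if_neg (by decide)]
    filter_upwards [hc (gt_mem_nhds h)] with e he
    rw [hcr, sign_eq_neg_one_iff]
    exact he
  · subst h
    rw [sign_zero, if_pos rfl]
    filter_upwards [hpos] with e he
    rw [hcr, zero_sub, Left.sign_neg, sign_mul, sign_pos he, one_mul]
  · have h1 : SignType.sign y = 1 := sign_eq_one_iff.2 h
    rw [h1, if_neg (by decide)]
    filter_upwards [hc (lt_mem_nhds h)] with e he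
    rw [hcr, sign_eq_one_iff]
    exact he

theorem ne_next {n : ℕ} {v : Fin n → ℝ × ℝ} (h : IsSimpleClosed v) (c : Fin n) :
    v c ≠ v (next c) := by
  intro h1
  have h2 := h.injective h1
  have h3 : c.1 = (next c).1 := congrArg Fin.val h2
  have h4 := h.three_le
  have h5 := c.2
  unfold next at h3
  simp only at h3
  rcases Nat.lt_or_ge (c.1 + 1) n with h6 | h6
  · rw [Nat.mod_eq_of_lt h6] at h3
    omega
  · have : c.1 + 1 = n := by omega
    rw [this, Nat.mod_self] at h3
    omega

/-- Membership in a simple polygon is determined by the signs. -/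
theorem mem_of_sameSign {n : ℕ} {v v' : Fin n → ℝ × ℝ} {P P' : Set (ℝ × ℝ)} (h : IsPolygon v P)
    (h' : IsPolygon v' P') {z z' : ℝ × ℝ} (hs : SameSign v v' z z') : z ∈ P ↔ z' ∈ P' := by
  classical
  have hs' : SameSign v' v z' z := fun c => ⟨(hs c).1.symm, (hs c).2.1.symm, (hs c).2.2.symm⟩
  by_cases hz : z ∈ curve v
  · have hz' := mem_curve_of_sameSign (ne_next h.simple) (ne_next h'.simple) hs hz
    exact ⟨fun _ => curve_subset h' hz', fun _ => curve_subset h hz⟩
  · have hz' : z' ∉ curve v' := fun h1 =>
      hz (mem_curve_of_sameSign (ne_next h'.simple) (ne_next h.simple) hs' h1)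
    have hev : ∀ (v : Fin n → ℝ × ℝ) (z : ℝ × ℝ), ∀ᶠ e in 𝓝[>] (0 : ℝ), ∀ c,
        SignType.sign (cr (1, e) (v c - z)) = if SignType.sign (v c - z).2 = 0 then
          - SignType.sign (v c - z).1 else SignType.sign (v c - z).2 := by
      intro v z
      rw [eventually_all]
      intro c
      exact eventually_sign
    obtain ⟨e, he1, he2⟩ := ((hev v z).and (hev v' z')).exists
    have hsame : ∀ c, SignType.sign (cr (1, e) (v c - z)) =
        SignType.sign (cr (1, e) (v' c - z')) := by
      intro c
      rw [he1, he2, (hs c).1, (hs c).2.1]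
    have hnz : ∀ c, cr (1, e) (v c - z) ≠ 0 := by
      intro c h0
      have h1 := he1 c
      rw [h0, sign_zero] at h1
      have h2 : v c - z = 0 := by
        split_ifs at h1 with h3
        · apply Prod.ext
          · have : SignType.sign (v c - z).1 = 0 := by
              have := congrArg (fun s => -s) h1
              simpa using this.symm
            exact sign_eq_zero_iff.1 this
          · exact sign_eq_zero_iff.1 h3
        · exact absurd h1.symm h3
      apply hz
      rw [← sub_eq_zero.1 h2]
      exact mem_iUnion.2 ⟨c, left_mem_segment _ _ _⟩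
    have hnz' : ∀ c, cr (1, e) (v' c - z') ≠ 0 := by
      intro c h0
      apply hnz c
      rw [← sign_eq_zero_iff, hsame, h0, sign_zero]
    rw [parity h hnz hz, parity h' hnz' hz']
    have hopp : ∀ (v v' : Fin n → ℝ × ℝ) (z z' : ℝ × ℝ),
        (∀ c, SignType.sign (cr (1, e) (v c - z)) = SignType.sign (cr (1, e) (v' c - z'))) →
        ∀ c, Opp v z (1, e) c → Opp v' z' (1, e) c := by
      intro v v' z z' h1 c h2
      unfold Opp at h2 ⊢
      rw [← sign_eq_neg_one_iff, sign_mul] at h2 ⊢
      rwa [← h1, ← h1]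
    have hpar : ∀ (v v' : Fin n → ℝ × ℝ) (z z' : ℝ × ℝ), SameSign v v' z z' →
        (∀ c, SignType.sign (cr (1, e) (v c - z)) = SignType.sign (cr (1, e) (v' c - z'))) →
        ∀ c, Opp v z (1, e) c → 0 < par v z (1, e) c → 0 < par v' z' (1, e) c := by
      intro v v' z z' hs h1 c h2 h3
      have h2' := hopp v v' z z' h1 c h2
      have key : ∀ (v : Fin n → ℝ × ℝ) (z : ℝ × ℝ), Opp v z (1, e) c →
          SignType.sign (cr (1, e) (v (next c) - v c)) =
            SignType.sign (cr (1, e) (v (next c) - z)) := by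
        intro v z hopp
        unfold Opp at hopp
        have : cr (1, e) (v (next c) - v c) = cr (1, e) (v (next c) - z) -
            cr (1, e) (v c - z) := by
          simp only [cr, Prod.fst_sub, Prod.snd_sub]
          ring
        rw [this]
        rcases lt_trichotomy (cr (1, e) (v (next c) - z)) 0 with h4 | h4 | h4
        · have h5 : 0 < cr (1, e) (v c - z) := by
            by_contra hcon
            nlinarith
          rw [sign_neg h4, sign_neg (by linarith)]
        · rw [h4] at hopp
          simp at hopp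
        · have h5 : cr (1, e) (v c - z) < 0 := by
            by_contra hcon
            nlinarith
          rw [sign_pos h4, sign_pos (by linarith)]
      unfold par at h3 ⊢
      rw [← sign_eq_one_iff] at h3 ⊢
      have hdiv : ∀ x y : ℝ, SignType.sign (x / y) = SignType.sign x * SignType.sign y := by
        intro x y
        rw [div_eq_mul_inv, sign_mul]
        congr 1
        rcases lt_trichotomy y 0 with h4 | h4 | h4
        · rw [sign_neg h4, sign_neg (inv_lt_zero.2 h4)]
        · rw [h4, inv_zero]
        · rw [sign_pos h4, sign_pos (inv_pos.2 h4)]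
      rw [hdiv] at h3 ⊢
      rw [key v' z' h2', ← (hs c).2.2, ← h1, ← key v z h2]
      exact h3
    have : cnt v z (1, e) 0 = cnt v' z' (1, e) 0 := by
      unfold cnt
      congr 1
      ext c
      simp only [Finset.mem_filter, Finset.mem_univ, true_and]
      constructor
      · rintro ⟨h1, h2⟩
        exact ⟨hopp _ _ _ _ hsame c h1, hpar _ _ _ _ hs hsame c h1 h2⟩
      · rintro ⟨h1, h2⟩
        exact ⟨hopp _ _ _ _ (fun c => (hsame c).symm) c h1,
          hpar _ _ _ _ hs' (fun c => (hsame c).symm) c h1 h2⟩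
    rw [this]

end Pool.Agent.T6.H89.Vis
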