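import Pool.Agent.T6.H89.Vis.Signs

/-!
# Test points for visibility
-/

set_option autoImplicit false

open Set Topology Filter

namespace Pool.Agent.T6.H89.Vis

section

variable {n : ℕ}

/-- The numerators of the critical parameters. -/
def num (v : Fin n → ℝ × ℝ) (i j : Fin n) : Fin n ⊕ Fin n → ℝ
  | .inl c => (v c - v i).1 * (v j - v i).1 + (v c - v i).2 * (v j - v i).2
  | .inr c => cr (v (next c) - v c) (v i - v c)

/-- The denominators of the critical parameters. -/
def den (v : Fin n → ℝ × ℝ) (i j : Fin n) : Fin n ⊕ Fin n → ℝ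
  | .inl _ => (v j - v i).1 * (v j - v i).1 + (v j - v i).2 * (v j - v i).2
  | .inr c => cr (v (next c) - v c) (v i - v j)

/-- The critical parameters. -/
noncomputable def tt (v : Fin n → ℝ × ℝ) (i j : Fin n) (κ : Fin n ⊕ Fin n) : ℝ :=
  num v i j κ / den v i j κ

/-- The point with the parameter `t` on the line through `v i` and `v j`. -/
def gam (v : Fin n → ℝ × ℝ) (i j : Fin n) (t : ℝ) : ℝ × ℝ := v i + t • (v j - v i)

theorem continuous_gam (v : Fin n → ℝ × ℝ) (i j : Fin n) : Continuous (gam v i j) := by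
  unfold gam
  fun_prop

theorem gam_mem_segment (v : Fin n → ℝ × ℝ) (i j : Fin n) {t : ℝ} (h0 : 0 ≤ t) (h1 : t ≤ 1) :
    gam v i j t ∈ segment ℝ (v i) (v j) := by
  rw [segment_eq_image']
  exact ⟨t, ⟨h0, h1⟩, rfl⟩

theorem exists_of_mem_segment (v : Fin n → ℝ × ℝ) (i j : Fin n) {p : ℝ × ℝ}
    (h : p ∈ segment ℝ (v i) (v j)) : ∃ t, 0 ≤ t ∧ t ≤ 1 ∧ gam v i j t = p := by
  rw [segment_eq_image'] at h
  obtain ⟨t, ⟨h0, h1⟩, h2⟩ := h
  exact ⟨t, h0, h1, h2⟩

theorem den_pos {v : Fin n → ℝ × ℝ} {i j : Fin n} (h : v i ≠ v j) (c : Fin n) :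
    0 < den v i j (.inl c) := by
  simp only [den, Prod.fst_sub, Prod.snd_sub]
  by_contra hcon
  have h1 : (v j).1 - (v i).1 = 0 := by
    nlinarith [mul_self_nonneg ((v j).1 - (v i).1), mul_self_nonneg ((v j).2 - (v i).2)]
  have h2 : (v j).2 - (v i).2 = 0 := by
    nlinarith [mul_self_nonneg ((v j).1 - (v i).1), mul_self_nonneg ((v j).2 - (v i).2)]
  apply h
  apply Prod.ext <;> linarith

theorem tt_left {v : Fin n → ℝ × ℝ} {i j : Fin n} : tt v i j (.inl i) = 0 := by
  simp [tt, num]

theorem tt_right {v : Fin n → ℝ × ℝ} {i j : Fin n} (h : v i ≠ v j) : tt v i j (.inl j) = 1 := by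
  have := (den_pos h j).ne'
  unfold tt
  rw [div_eq_one_iff_eq this]
  simp [num, den]

theorem tt_of_vertex {v : Fin n → ℝ × ℝ} {i j : Fin n} (h : v i ≠ v j) {c : Fin n} {s : ℝ}
    (hs : gam v i j s = v c) : s = tt v i j (.inl c) := by
  have := (den_pos h c).ne'
  unfold tt
  rw [eq_div_iff this]
  simp only [num, den, ← hs, gam, Prod.fst_sub, Prod.snd_sub, Prod.fst_add, Prod.snd_add,
    Prod.smul_fst, Prod.smul_snd, smul_eq_mul]
  ring

theorem gam_injective {v : Fin n → ℝ × ℝ} {i j : Fin n} (h : v i ≠ v j) :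
    Function.Injective (gam v i j) := by
  intro s t hst
  have hd := (den_pos h i).ne'
  have : (s - t) * den v i j (.inl i) = 0 := by
    have h1 := congrArg Prod.fst hst
    have h2 := congrArg Prod.snd hst
    simp only [gam, Prod.fst_sub, Prod.snd_sub, Prod.fst_add, Prod.snd_add,
      Prod.smul_fst, Prod.smul_snd, smul_eq_mul] at h1 h2
    simp only [den, Prod.fst_sub, Prod.snd_sub]
    linear_combination ((v j).1 - (v i).1) * h1 + ((v j).2 - (v i).2) * h2
  rcases mul_eq_zero.1 this with h3 | h3
  · linarith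
  · exact absurd h3 hd

/-- Along the line, membership is locally constant at non-critical parameters. -/
theorem local_mem {v : Fin n → ℝ × ℝ} {P : Set (ℝ × ℝ)} (h : IsPolygon v P) {i j : Fin n}
    (hij : i ≠ j) {s : ℝ} (hs : ∀ κ, den v i j κ ≠ 0 → tt v i j κ ≠ s) (hP : gam v i j s ∈ P) :
    ∀ᶠ s' in 𝓝 s, gam v i j s' ∈ P := by
  have hvij : v i ≠ v j := fun h1 => hij (h.simple.injective h1)
  by_cases hc : gam v i j s ∈ curve v
  · obtain ⟨c, hc⟩ := mem_iUnion.1 hc
    have hcr := cr_edge hc
    have hne := ne_next h.simple c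
    -- the denominator vanishes
    have hden : den v i j (.inr c) = 0 := by
      by_contra hd
      apply hs (.inr c) hd
      unfold tt
      rw [div_eq_iff hd]
      simp only [num, den]
      simp only [gam, cr, Prod.fst_sub, Prod.snd_sub, Prod.fst_add, Prod.snd_add,
        Prod.smul_fst, Prod.smul_snd, smul_eq_mul] at hcr ⊢
      linear_combination hcr
    simp only [den] at hden
    -- the endpoints are on the line
    have hα : gam v i j (tt v i j (.inl c)) = v c ∧
        gam v i j (tt v i j (.inl (next c))) = v (next c) := by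
      have hd1 := (den_pos hvij c)
      set A := tt v i j (.inl c) with hA
      set B := tt v i j (.inl (next c)) with hB
      have hA' : A * den v i j (.inl c) = num v i j (.inl c) := by
        rw [hA, tt]
        field_simp
      have hB' : B * den v i j (.inl (next c)) = num v i j (.inl (next c)) := by
        rw [hB, tt]
        have := (den_pos hvij (next c)).ne'
        field_simp
      have hu : v (next c) - v c ≠ 0 := sub_ne_zero.2 hne.symm
      simp only [num, den] at hA' hB' hd1
      simp only [gam, cr, Prod.fst_sub, Prod.snd_sub, Prod.fst_add, Prod.snd_add,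
        Prod.smul_fst, Prod.smul_snd, smul_eq_mul] at hcr hden hA' hB' hd1 ⊢
      generalize v (next c) = b at *
      generalize v c = a at *
      generalize v i = p at *
      generalize v j = q at *
      obtain ⟨a1, a2⟩ := a
      obtain ⟨b1, b2⟩ := b
      obtain ⟨p1, p2⟩ := p
      obtain ⟨q1, q2⟩ := q
      simp only at hcr hden hA' hB' hd1 ⊢
      simp only [ne_eq, Prod.mk.injEq, not_and] at hne
      -- `w = q - p` is parallel to `u = b - a`
      have hw : ¬ ((q1 - p1) = 0 ∧ (q2 - p2) = 0) := by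
        rintro ⟨h1, h2⟩
        rw [h1, h2] at hd1
        simp at hd1
      have hpar : (a1 - p1) * (q2 - p2) - (a2 - p2) * (q1 - p1) = 0 := by
        -- multiply by the components of `u`
        have e1 : (b1 - a1) * ((a1 - p1) * (q2 - p2) - (a2 - p2) * (q1 - p1)) = 0 := by
          linear_combination (a1 - p1 - s * (q1 - p1)) * (-hden) + (-(q1 - p1)) * (-hcr)
        have e2 : (b2 - a2) * ((a1 - p1) * (q2 - p2) - (a2 - p2) * (q1 - p1)) = 0 := by
          linear_combination (a2 - p2 - s * (q2 - p2)) * (-hden) + (-(q2 - p2)) * (-hcr)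
        rcases mul_eq_zero.1 e1 with h1 | h1
        · rcases mul_eq_zero.1 e2 with h2 | h2
          · exfalso
            exact hne (by linarith) (by linarith)
          · exact h2
        · exact h1
      have hpar' : (b1 - p1) * (q2 - p2) - (b2 - p2) * (q1 - p1) = 0 := by
        linear_combination hpar - hden
      have solve : ∀ x1 x2 X : ℝ, (x1 - p1) * (q2 - p2) - (x2 - p2) * (q1 - p1) = 0 →
          X * ((q1 - p1) * (q1 - p1) + (q2 - p2) * (q2 - p2)) =
            (x1 - p1) * (q1 - p1) + (x2 - p2) * (q2 - p2) →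
          p1 + X * (q1 - p1) = x1 ∧ p2 + X * (q2 - p2) = x2 := by
        intro x1 x2 X h1 h2
        have hD : (q1 - p1) * (q1 - p1) + (q2 - p2) * (q2 - p2) ≠ 0 := hd1.ne'
        constructor
        · have : (p1 + X * (q1 - p1) - x1) * ((q1 - p1) * (q1 - p1) + (q2 - p2) * (q2 - p2)) =
              0 := by
            linear_combination (q1 - p1) * h2 - (q2 - p2) * h1
          rcases mul_eq_zero.1 this with h3 | h3
          · linarith
          · exact absurd h3 hD
        · have : (p2 + X * (q2 - p2) - x2) * ((q1 - p1) * (q1 - p1) + (q2 - p2) * (q2 - p2)) =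
              0 := by
            linear_combination (q2 - p2) * h2 + (q1 - p1) * h1
          rcases mul_eq_zero.1 this with h3 | h3
          · linarith
          · exact absurd h3 hD
      obtain ⟨h1, h2⟩ := solve a1 a2 A hpar hA'
      obtain ⟨h3, h4⟩ := solve b1 b2 B hpar' hB'
      exact ⟨Prod.ext h1 h2, Prod.ext h3 h4⟩
    obtain ⟨hαc, hβc⟩ := hα
    set α := tt v i j (.inl c) with hαdef
    set β := tt v i j (.inl (next c)) with hβdef
    have hsα : α ≠ s := hs (.inl c) (den_pos hvij c).ne'
    have hsβ : β ≠ s := hs (.inl (next c)) (den_pos hvij (next c)).ne'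
    unfold edge at hc
    rw [segment_eq_image] at hc
    obtain ⟨l, ⟨hl0, hl1⟩, hl⟩ := hc
    simp only at hl
    have hcomb : ∀ l : ℝ, (1 - l) • v c + l • v (next c) = gam v i j ((1 - l) * α + l * β) := by
      intro l
      rw [← hαc, ← hβc]
      simp only [gam]
      module
    rw [hcomb] at hl
    have hsl := gam_injective hvij hl
    -- `s` is strictly between `α` and `β`
    have hαβ : α ≠ β := by
      intro h1
      apply hsα
      rw [← hsl, ← h1]
      ring
    have hmem : ∀ s', (α ≤ s' ∧ s' ≤ β) ∨ (β ≤ s' ∧ s' ≤ α) → gam v i j s' ∈ P := by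
      intro s' hs'
      apply curve_subset h
      refine mem_iUnion.2 ⟨c, ?_⟩
      unfold edge
      rw [segment_eq_image]
      have hne' : β - α ≠ 0 := sub_ne_zero.2 hαβ.symm
      refine ⟨(s' - α) / (β - α), ?_, ?_⟩
      · rcases hs' with hs' | hs'
        · have h1 : 0 < β - α := lt_of_le_of_ne (by linarith) hne'.symm
          exact ⟨div_nonneg (by linarith) h1.le, by rw [div_le_one h1]; linarith⟩
        · have h1 : β - α < 0 := lt_of_le_of_ne (by linarith) hne'
          exact ⟨div_nonneg_of_nonpos (by linarith) h1.le, by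
            rw [div_le_one_of_neg h1]; linarith⟩
      · simp only
        rw [hcomb]
        congr 1
        field_simp
        ring
    rcases lt_or_gt_of_ne hαβ with h1 | h1
    · have h2 : α < s := by
        apply lt_of_le_of_ne _ hsα
        nlinarith
      have h3 : s < β := by
        apply lt_of_le_of_ne _ hsβ.symm
        nlinarith
      filter_upwards [lt_mem_nhds h2, gt_mem_nhds h3] with s' h4 h5
      exact hmem s' (Or.inl ⟨h4.le, h5.le⟩)
    · have h2 : β < s := by
        apply lt_of_le_of_ne _ hsβ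
        nlinarith
      have h3 : s < α := by
        apply lt_of_le_of_ne _ hsα.symm
        nlinarith
      filter_upwards [lt_mem_nhds h2, gt_mem_nhds h3] with s' h4 h5
      exact hmem s' (Or.inr ⟨h4.le, h5.le⟩)
  · have h3 : gam v i j s ∈ interior P := by
      by_contra h4
      apply hc
      rw [← h.boundary, h.compact.isClosed.frontier_eq]
      exact ⟨hP, h4⟩
    filter_upwards [(continuous_gam v i j).tendsto s (isOpen_interior.mem_nhds h3)] with s' hs'
    have : gam v i j s' ∈ interior P := hs'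
    exact interior_subset this

/-- Visibility is decided by the test points. -/
theorem visible_iff {v : Fin n → ℝ × ℝ} {P : Set (ℝ × ℝ)} (h : IsPolygon v P) {i j : Fin n}
    (hij : i ≠ j) : segment ℝ (v i) (v j) ⊆ P ↔
      ∀ κ₁ κ₂, den v i j κ₁ ≠ 0 → den v i j κ₂ ≠ 0 → (0 ≤ tt v i j κ₁ ∧ tt v i j κ₁ ≤ 1) →
        (0 ≤ tt v i j κ₂ ∧ tt v i j κ₂ ≤ 1) →
        gam v i j ((tt v i j κ₁ + tt v i j κ₂) / 2) ∈ P := by
  classical
  have hvij : v i ≠ v j := fun h1 => hij (h.simple.injective h1)
  constructor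
  · intro h1 κ₁ κ₂ _ _ h2 h3
    exact h1 (gam_mem_segment v i j (by linarith [h2.1, h3.1]) (by linarith [h2.2, h3.2]))
  · intro htest p hp
    by_contra hpP
    obtain ⟨s0, hs0, hs1, rfl⟩ := exists_of_mem_segment v i j hp
    let W : Set ℝ := {s | gam v i j s ∉ P}
    have hW : IsOpen W := h.compact.isClosed.isOpen_compl.preimage (continuous_gam v i j)
    have hs0W : s0 ∈ W := hpP
    let T : Finset ℝ := (Finset.univ.filter fun κ => den v i j κ ≠ 0).image (tt v i j)
    have hT : ∀ κ, den v i j κ ≠ 0 → tt v i j κ ∈ T := fun κ hκ =>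
      Finset.mem_image_of_mem _ (Finset.mem_filter.2 ⟨Finset.mem_univ _, hκ⟩)
    have h0T : (0 : ℝ) ∈ T := by
      rw [← tt_left (v := v) (i := i) (j := j)]
      exact hT _ (den_pos hvij i).ne'
    have h1T : (1 : ℝ) ∈ T := by
      rw [← tt_right hvij]
      exact hT _ (den_pos hvij j).ne'
    -- a good parameter
    have hcl : s0 ∈ closure (Ioo (0 : ℝ) 1) := by
      rw [closure_Ioo zero_ne_one]
      exact ⟨hs0, hs1⟩
    have hne : (W ∩ Ioo 0 1).Nonempty := mem_closure_iff.1 hcl W hW hs0W
    have hdense : Dense ((T : Set ℝ)ᶜ) := Set.Countable.dense_compl ℝ T.countable_toSet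
    obtain ⟨s', ⟨hs'W, hs'0, hs'1⟩, hs'T⟩ := hdense.inter_open_nonempty _
      (hW.inter isOpen_Ioo) hne
    have hne1 : (T.filter fun t => t < s').Nonempty := ⟨0, Finset.mem_filter.2 ⟨h0T, hs'0⟩⟩
    have hne2 : (T.filter fun t => s' < t).Nonempty := ⟨1, Finset.mem_filter.2 ⟨h1T, hs'1⟩⟩
    set t1 := (T.filter fun t => t < s').max' hne1 with ht1
    set t2 := (T.filter fun t => s' < t).min' hne2 with ht2
    have h1m := Finset.max'_mem _ hne1
    have h2m := Finset.min'_mem _ hne2
    rw [← ht1, Finset.mem_filter] at h1m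
    rw [← ht2, Finset.mem_filter] at h2m
    have h1ge : 0 ≤ t1 := Finset.le_max' _ _ (Finset.mem_filter.2 ⟨h0T, hs'0⟩)
    have h2le : t2 ≤ 1 := Finset.min'_le _ _ (Finset.mem_filter.2 ⟨h1T, hs'1⟩)
    have hgap : ∀ t ∈ T, t ≤ t1 ∨ t2 ≤ t := by
      intro t ht
      rcases lt_trichotomy t s' with h3 | h3 | h3
      · exact Or.inl (Finset.le_max' _ _ (Finset.mem_filter.2 ⟨ht, h3⟩))
      · exact absurd (h3 ▸ ht) hs'T
      · exact Or.inr (Finset.min'_le _ _ (Finset.mem_filter.2 ⟨ht, h3⟩))
    have hcover : Ioo t1 t2 ⊆ interior {s | gam v i j s ∈ P} ∪ W := by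
      intro s hs
      by_cases h3 : gam v i j s ∈ P
      · left
        rw [mem_interior_iff_mem_nhds]
        apply local_mem h hij _ h3
        intro κ hκ heq
        rcases hgap _ (hT κ hκ) with h4 | h4
        · rw [heq] at h4
          exact absurd hs.1 (not_lt.2 h4)
        · rw [heq] at h4
          exact absurd hs.2 (not_lt.2 h4)
      · exact Or.inr h3
    have hdisj : Disjoint (interior {s | gam v i j s ∈ P}) W := by
      rw [Set.disjoint_left]
      intro s h3 h4
      have h5 : s ∈ {s | gam v i j s ∈ P} := interior_subset h3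
      exact h4 h5
    rcases IsPreconnected.subset_or_subset isOpen_interior hW hdisj hcover
      isPreconnected_Ioo with h3 | h3
    · have := interior_subset (h3 ⟨h1m.2, h2m.2⟩)
      exact hs'W this
    · have hmid : (t1 + t2) / 2 ∈ W := by
        apply h3
        have := h1m.2
        have := h2m.2
        constructor <;> linarith
      obtain ⟨κ₁, hκ₁, e1⟩ := Finset.mem_image.1 h1m.1
      obtain ⟨κ₂, hκ₂, e2⟩ := Finset.mem_image.1 h2m.1
      rw [Finset.mem_filter] at hκ₁ hκ₂
      apply hmid
      rw [← e1, ← e2]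
      have h4 := h1m.2
      have h5 := h2m.2
      apply htest κ₁ κ₂ hκ₁.2 hκ₂.2
      · rw [e1]
        exact ⟨h1ge, by linarith⟩
      · rw [e2]
        exact ⟨by linarith, h2le⟩

end

end Pool.Agent.T6.H89.Vis
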